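import Pool.Agent.Work.MP_6dc561_nt.PS.Exc

/-!
# One exceptional set for all scales
-/

set_option autoImplicit false

open Finset Filter Topology Asymptotics

namespace Pool.Agent.Work.MP_6dc561_nt.PS

open Pool.Agent.Work.MP_6dc561_nt.AA

variable {pr : ℕ → ℕ} {C : ℝ}

/-- every large `n` is close to one of the scales -/
theorem exists_scale' {K : ℕ} (hK : 0 < K) (n : ℕ) (hn : 1 ≤ n) :
    ∃ i m, 1 ≤ m ∧ m < 2 * K ∧ m * 2 ^ i ≤ n ∧ n ≤ 2 * (m * 2 ^ i) ∧
      (n : ℝ) - (m * 2 ^ i : ℕ) ≤ n / K := by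
  by_cases h : n < K
  · refine ⟨0, n, hn, by omega, by simp, by simp; omega, ?_⟩
    simp only [pow_zero, mul_one, sub_self]
    positivity
  · push Not at h
    obtain ⟨i, m, -, h1, h2, h3, h4⟩ := exists_scale hK 0 n (by simpa using h)
    have h2i : 0 < 2 ^ i := by positivity
    have hm1 : 1 ≤ m := by omega
    refine ⟨i, m, hm1, h2, h3, ?_, ?_⟩
    · have : 1 * 2 ^ i ≤ m * 2 ^ i := Nat.mul_le_mul_right _ hm1
      omega
    · have hK0 : (0 : ℝ) < K := by exact_mod_cast hK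
      have e1 : (n : ℝ) ≤ (m * 2 ^ i : ℕ) + 2 ^ i := by
        exact_mod_cast h4.le
      have e2 : (K : ℝ) * 2 ^ i ≤ n := by
        have : K * 2 ^ i ≤ n := (Nat.mul_le_mul_right _ h1).trans h3
        exact_mod_cast this
      have e3 : (2 : ℝ) ^ i ≤ n / K := by
        rw [le_div_iff₀ hK0, mul_comm]; exact e2
      linarith

theorem exceptional_all (h : PrimeSeq pr C) (α β : ℕ → ℝ) {R : ℝ} (hR : 0 ≤ R) {κ : ℝ}
    (hκ0 : 0 < κ) (hκ : κ ≤ 1 / 15) :
    ∃ B : ℝ, 0 ≤ B ∧ ∃ D₀ N₀ : ℕ, ∀ D : ℕ, D₀ ≤ D → ∀ s : Finset ℤ, SqfSet s D →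
      ∃ E : Finset ℤ, (E.card : ℝ) ≤ B * (D : ℝ) ^ (23 * κ) ∧
        ∀ d ∈ s, d ∉ E → ∀ n : ℕ, N₀ ≤ n → 2 * (5 * Real.log D) ^ (1 / κ) ≤ n →
          Real.log n ≤ (D : ℝ) ^ (κ / 2) →
          |TT pr (fun _ => 1) n d| ≤ B * (n * (min (n : ℝ) D) ^ (-(κ / 4))) ∧
          ∀ H : ℝ → ℝ → ℝ, LipR R H → |TT pr (fun p => H (α p) (β p)) n d| ≤
            B * (n * (min (n : ℝ) D) ^ (-(κ / 4))) := by
  classical
  have hC := h.pos
  obtain ⟨N₁, hN₁⟩ := eventually_log_le (4 * C) (4 * C * |Real.log (4 * C)|) κ hκ0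
  obtain ⟨D₁, hD₁⟩ := eventually_rpow_le (4 * C) (4 * C * |Real.log (4 * C)|) κ hκ0
  obtain ⟨D₂, hD₂⟩ := eventually_log_le 5 0 κ hκ0
  set c : ℝ := 4 * (1 + (4 * R + 3) ^ 2) with hc
  have hc0 : 0 ≤ c := by positivity
  refine ⟨12 * c + 8 * (((4 * R + 3) ^ 2 + 2) + 1), by positivity,
    max 8 (max ⌈D₁⌉₊ ⌈D₂⌉₊), 2 * ⌈N₁⌉₊ + 6, fun D hD s hs => ?_⟩
  have hD8 : 8 ≤ D := (le_max_left _ _).trans hD
  have hD8r : (8 : ℝ) ≤ D := by exact_mod_cast hD8
  have hD1 : (1 : ℝ) ≤ D := by linarith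
  have hD0 : (0 : ℝ) < D := by linarith
  have hDD₁ : D₁ ≤ D := by
    calc D₁ ≤ (⌈D₁⌉₊ : ℝ) := Nat.le_ceil _
      _ ≤ D := by
        exact_mod_cast ((le_max_left _ _).trans (le_max_right _ _)).trans hD
  have hDD₂ : D₂ ≤ D := by
    calc D₂ ≤ (⌈D₂⌉₊ : ℝ) := Nat.le_ceil _
      _ ≤ D := by
        exact_mod_cast ((le_max_right _ _).trans (le_max_right _ _)).trans hD
  have hDκ1 : 1 ≤ (D : ℝ) ^ κ := Real.one_le_rpow hD1 hκ0.le
  have hDκ2 : 1 ≤ (D : ℝ) ^ (κ / 2) := Real.one_le_rpow hD1 (by linarith)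
  set K : ℕ := ⌈(D : ℝ) ^ κ⌉₊ with hK
  have hK1 : (D : ℝ) ^ κ ≤ K := Nat.le_ceil _
  have hK2 : (K : ℝ) < (D : ℝ) ^ κ + 1 := Nat.ceil_lt_add_one (by linarith)
  have hKpos : 0 < K := by
    have : (0 : ℝ) < K := by linarith
    exact_mod_cast this
  set I : ℕ := ⌊2 * (D : ℝ) ^ (κ / 2)⌋₊ with hI
  have hI1 : (I : ℝ) ≤ 2 * (D : ℝ) ^ (κ / 2) := Nat.floor_le (by positivity)
  set T : Finset (ℕ × ℕ) := range (2 * K) ×ˢ range (I + 1) with hT
  set E : Finset ℤ := T.biUnion fun t =>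
    if OK C κ pr D (t.1 * 2 ^ t.2) then excAt κ R pr α β s D (t.1 * 2 ^ t.2) else ∅ with hE
  refine ⟨E, ?_, ?_⟩
  · -- the size
    have hpow21 : 0 ≤ (D : ℝ) ^ (21 * κ) := Real.rpow_nonneg hD0.le _
    have h1 : (E.card : ℝ) ≤ ∑ t ∈ T, c * (D : ℝ) ^ (21 * κ) := by
      have e1 : E.card ≤ ∑ t ∈ T, (if OK C κ pr D (t.1 * 2 ^ t.2) then
          excAt κ R pr α β s D (t.1 * 2 ^ t.2) else ∅ : Finset ℤ).card := card_biUnion_le
      calc (E.card : ℝ) ≤ ∑ t ∈ T, ((if OK C κ pr D (t.1 * 2 ^ t.2) then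
            excAt κ R pr α β s D (t.1 * 2 ^ t.2) else ∅ : Finset ℤ).card : ℝ) := by
            exact_mod_cast e1
        _ ≤ _ := by
          refine sum_le_sum fun t _ => ?_
          split_ifs with hok
          · exact card_excAt h hs hD8 hκ0 hκ hR α β hok
          · simp only [card_empty, Nat.cast_zero]
            positivity
    have h2 : ((T.card : ℕ) : ℝ) ≤ 12 * (D : ℝ) ^ (3 / 2 * κ) := by
      rw [hT, card_product, card_range, card_range]
      push_cast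
      have e1 : 2 * (K : ℝ) ≤ 4 * (D : ℝ) ^ κ := by linarith
      have e2 : (I : ℝ) + 1 ≤ 3 * (D : ℝ) ^ (κ / 2) := by linarith
      calc 2 * (K : ℝ) * (I + 1) ≤ (4 * (D : ℝ) ^ κ) * (3 * (D : ℝ) ^ (κ / 2)) := by
            gcongr
        _ = 12 * ((D : ℝ) ^ κ * (D : ℝ) ^ (κ / 2)) := by ring
        _ = 12 * (D : ℝ) ^ (3 / 2 * κ) := by
            rw [← Real.rpow_add hD0]; ring_nf
    have h3 : (D : ℝ) ^ (3 / 2 * κ) * (D : ℝ) ^ (21 * κ) ≤ (D : ℝ) ^ (23 * κ) := by
      rw [← Real.rpow_add hD0]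
      exact Real.rpow_le_rpow_of_exponent_le hD1 (by linarith)
    have h23 : 0 ≤ (D : ℝ) ^ (23 * κ) := Real.rpow_nonneg hD0.le _
    calc (E.card : ℝ) ≤ ∑ t ∈ T, c * (D : ℝ) ^ (21 * κ) := h1
      _ = T.card * (c * (D : ℝ) ^ (21 * κ)) := by rw [sum_const, nsmul_eq_mul]
      _ ≤ (12 * (D : ℝ) ^ (3 / 2 * κ)) * (c * (D : ℝ) ^ (21 * κ)) := by gcongr
      _ = 12 * c * ((D : ℝ) ^ (3 / 2 * κ) * (D : ℝ) ^ (21 * κ)) := by ring
      _ ≤ 12 * c * (D : ℝ) ^ (23 * κ) := by gcongr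
      _ ≤ _ := by
        apply mul_le_mul_of_nonneg_right _ h23
        have : 0 ≤ 8 * (((4 * R + 3) ^ 2 + 2) + 1) := by positivity
        linarith
  · intro d hd hdE n hn hn2 hn3
    have hn6 : 6 ≤ n := by omega
    have hn6r : (6 : ℝ) ≤ n := by exact_mod_cast hn6
    have hn0 : (0 : ℝ) < n := by linarith
    obtain ⟨i, m, hm1, hmK, hle, hge, hdiff⟩ := exists_scale' hKpos n (by omega)
    set n' : ℕ := m * 2 ^ i with hn'
    have hn'n : (n' : ℝ) ≤ n := by exact_mod_cast hle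
    have hn2n' : (n : ℝ) ≤ 2 * n' := by exact_mod_cast hge
    have hn'3 : (3 : ℝ) ≤ n' := by linarith
    have hn'0 : (0 : ℝ) < n' := by linarith
    -- the index is in range
    have hiI : i ≤ I := by
      apply Nat.le_floor
      have e1 : (2 : ℝ) ^ i ≤ n := by
        have : 1 * 2 ^ i ≤ n := (Nat.mul_le_mul_right _ hm1).trans hle
        rw [one_mul] at this
        exact_mod_cast this
      have e2 : (i : ℝ) * Real.log 2 ≤ Real.log n := by
        rw [← Real.log_pow]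
        exact Real.log_le_log (by positivity) e1
      have e3 : (1 : ℝ) / 2 ≤ Real.log 2 := by
        have := Real.log_two_gt_d9
        linarith
      have hi0 : (0 : ℝ) ≤ i := Nat.cast_nonneg i
      nlinarith
    have htT : (m, i) ∈ T := by
      rw [hT, mem_product, mem_range, mem_range]
      exact ⟨hmK, by show i < I + 1; omega⟩
    -- the scale is good
    have hok : OK C κ pr D n' := by
      have hn'1 : 1 ≤ n' := by exact_mod_cast (by linarith : (1 : ℝ) ≤ n')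
      refine ⟨hn'1, le_min hn'3 (by linarith), ?_, ?_⟩
      · have e1 := log_pr_le h hn'1
        have e2 : 2 * C * Real.log (pr n') ≤
            4 * C * Real.log n' + 4 * C * |Real.log (4 * C)| := by
          calc 2 * C * Real.log (pr n') ≤
                2 * C * (2 * Real.log n' + 2 * |Real.log (4 * C)|) :=
                mul_le_mul_of_nonneg_left e1 (by positivity)
            _ = _ := by ring
        rcases le_total (n' : ℝ) D with hcase | hcase
        · rw [min_eq_left hcase]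
          refine e2.trans (hN₁ _ ?_)
          have e3 : N₁ ≤ (⌈N₁⌉₊ : ℝ) := Nat.le_ceil _
          have e4 : 2 * (⌈N₁⌉₊ : ℝ) + 6 ≤ n := by exact_mod_cast hn
          linarith
        · rw [min_eq_right hcase]
          have e3 : Real.log n' ≤ (D : ℝ) ^ (κ / 2) :=
            (Real.log_le_log hn'0 hn'n).trans hn3
          refine e2.trans ((?_ : _ ≤ 4 * C * (D : ℝ) ^ (κ / 2) +
            4 * C * |Real.log (4 * C)|).trans (hD₁ _ hDD₁))
          have := mul_le_mul_of_nonneg_left e3 (by positivity : 0 ≤ 4 * C)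
          linarith
      · rcases le_total (n' : ℝ) D with hcase | hcase
        · rw [min_eq_left hcase]
          have hlog0 : 0 ≤ 5 * Real.log D := by
            have := Real.log_nonneg hD1
            positivity
          have e1 : (5 * Real.log D) ^ (1 / κ) ≤ n' := by linarith
          calc 5 * Real.log D = ((5 * Real.log D) ^ (1 / κ)) ^ κ := by
                rw [← Real.rpow_mul hlog0, one_div, inv_mul_cancel₀ hκ0.ne', Real.rpow_one]
            _ ≤ (n' : ℝ) ^ κ :=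
                Real.rpow_le_rpow (Real.rpow_nonneg hlog0 _) e1 hκ0.le
        · rw [min_eq_right hcase]
          have := hD₂ _ hDD₂
          linarith
    have hdn : d ∉ excAt κ R pr α β s D n' := by
      intro hmem
      apply hdE
      rw [hE, mem_biUnion]
      refine ⟨(m, i), htT, ?_⟩
      rw [if_pos hok]
      exact hmem
    obtain ⟨g1, g2⟩ := good_at hκ0 hR α β hok hd hdn
    -- comparison of the bounds at `n'` and at `n`
    set M : ℝ := min (n : ℝ) D with hM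
    set M' : ℝ := min (n' : ℝ) D with hM'
    have hM1 : 1 ≤ M := le_min (by linarith) hD1
    have hM0 : 0 < M := by linarith
    have hM'1 : 1 ≤ M' := le_min (by linarith) hD1
    have hM'0 : 0 < M' := by linarith
    have hMM' : M / 2 ≤ M' := by
      apply le_min
      · have : M ≤ n := min_le_left _ _
        linarith
      · have : M ≤ D := min_le_right _ _
        linarith
    have hrate : M' ^ (-(κ / 4)) ≤ 2 * M ^ (-(κ / 4)) := by
      calc M' ^ (-(κ / 4)) ≤ (M / 2) ^ (-(κ / 4)) :=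
            Real.rpow_le_rpow_of_nonpos (by positivity) hMM' (by linarith)
        _ = M ^ (-(κ / 4)) * 2 ^ (κ / 4) := by
            rw [Real.div_rpow hM0.le (by norm_num), Real.rpow_neg (by norm_num : (0 : ℝ) ≤ 2),
              div_inv_eq_mul]
        _ ≤ M ^ (-(κ / 4)) * 2 ^ (1 : ℝ) := by
            apply mul_le_mul_of_nonneg_left _ (Real.rpow_nonneg hM0.le _)
            exact Real.rpow_le_rpow_of_exponent_le (by norm_num) (by linarith)
        _ = _ := by rw [Real.rpow_one]; ring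
    have hMr0 : 0 < M ^ (-(κ / 4)) := Real.rpow_pos_of_pos hM0 _
    have hbase : (n' : ℝ) * M' ^ (-(κ / 4)) ≤ 2 * (n * M ^ (-(κ / 4))) := by
      calc (n' : ℝ) * M' ^ (-(κ / 4)) ≤ n * (2 * M ^ (-(κ / 4))) :=
            mul_le_mul hn'n hrate (Real.rpow_nonneg hM'0.le _) hn0.le
        _ = _ := by ring
    have hκκ : M' ^ (-κ) ≤ M' ^ (-(κ / 4)) :=
      Real.rpow_le_rpow_of_exponent_le hM'1 (by linarith)
    have hgap : (n : ℝ) - n' ≤ n * M ^ (-(κ / 4)) := by
      have e1 : (n : ℝ) / K ≤ n * M ^ (-(κ / 4)) := by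
        rw [div_eq_mul_inv]
        apply mul_le_mul_of_nonneg_left _ hn0.le
        rw [Real.rpow_neg hM0.le]
        apply inv_anti₀ (Real.rpow_pos_of_pos hM0 _)
        calc M ^ (κ / 4) ≤ M ^ κ := Real.rpow_le_rpow_of_exponent_le hM1 (by linarith)
          _ ≤ (D : ℝ) ^ κ := Real.rpow_le_rpow hM0.le (min_le_right _ _) hκ0.le
          _ ≤ K := hK1
      exact hdiff.trans e1
    have hB1 : 3 ≤ 12 * c + 8 * (((4 * R + 3) ^ 2 + 2) + 1) := by
      have : 0 ≤ (4 * R + 3) ^ 2 := sq_nonneg _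
      linarith
    have hy0 : 0 ≤ n * M ^ (-(κ / 4)) := by positivity
    refine ⟨?_, fun H hH => ?_⟩
    · have e1 := TT_sub_le (pr := pr) (g := fun _ => (1 : ℝ)) zero_le_one
        (fun _ => by simp) hle d
      calc |TT pr (fun _ => 1) n d| ≤ |TT pr (fun _ => 1) n' d| + 1 * ((n : ℝ) - n') := e1
        _ ≤ n' * M' ^ (-κ) + 1 * (n * M ^ (-(κ / 4))) := by
            rw [one_mul, one_mul]; exact add_le_add g1 hgap
        _ ≤ n' * M' ^ (-(κ / 4)) + 1 * (n * M ^ (-(κ / 4))) := by gcongr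
        _ ≤ 3 * (n * M ^ (-(κ / 4))) := by linarith
        _ ≤ _ := mul_le_mul_of_nonneg_right hB1 hy0
    · have e1 := TT_sub_le (pr := pr) (g := fun p => H (α p) (β p)) zero_le_one
        (fun _ => hH.le_one _ _) hle d
      have e2 := g2 H hH
      have hq : 0 ≤ (4 * R + 3) ^ 2 + 2 := by positivity
      calc |TT pr (fun p => H (α p) (β p)) n d| ≤
            |TT pr (fun p => H (α p) (β p)) n' d| + 1 * ((n : ℝ) - n') := e1
        _ ≤ ((4 * R + 3) ^ 2 + 2) * (n' * M' ^ (-(κ / 4))) + 1 * (n * M ^ (-(κ / 4))) := by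
            rw [one_mul, one_mul]; exact add_le_add e2 hgap
        _ ≤ ((4 * R + 3) ^ 2 + 2) * (2 * (n * M ^ (-(κ / 4)))) +
              1 * (n * M ^ (-(κ / 4))) := by gcongr
        _ = (2 * ((4 * R + 3) ^ 2 + 2) + 1) * (n * M ^ (-(κ / 4))) := by ring
        _ ≤ _ := by
            apply mul_le_mul_of_nonneg_right _ hy0
            linarith

end Pool.Agent.Work.MP_6dc561_nt.PS
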