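import Pool.Agent.Work.MP_6dc561_nt.PS.Scales

/-!
# The exceptional set
-/

set_option autoImplicit false

open Finset Filter Topology Asymptotics

namespace Pool.Agent.Work.MP_6dc561_nt.PS

open Pool.Agent.Work.MP_6dc561_nt.AA

variable {pr : ℕ → ℕ} {C : ℝ}

/-- the resolution used at the scale `n` -/
noncomputable def wid (κ : ℝ) (D n : ℕ) : ℕ := ⌈(min (n : ℝ) D) ^ (κ / 4)⌉₊

/-- the size of the grid at the scale `n` -/
noncomputable def grid (κ R : ℝ) (D n : ℕ) : ℕ := ⌈(wid κ D n : ℝ) * R⌉₊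

/-- the conditions on a scale -/
def OK (C κ : ℝ) (pr : ℕ → ℕ) (D n : ℕ) : Prop :=
  1 ≤ n ∧ 3 ≤ min (n : ℝ) D ∧ 2 * C * Real.log (pr n) ≤ (min (n : ℝ) D) ^ κ ∧
    5 * Real.log D ≤ (min (n : ℝ) D) ^ κ

theorem wid_le {κ : ℝ} (hκ0 : 0 < κ) {D n : ℕ} (hm : 1 ≤ min (n : ℝ) D) :
    (wid κ D n : ℝ) ≤ 2 * (min (n : ℝ) D) ^ (κ / 4) ∧ (min (n : ℝ) D) ^ (κ / 4) ≤ wid κ D n ∧
      1 ≤ wid κ D n := by
  have h1 : 1 ≤ (min (n : ℝ) D) ^ (κ / 4) := Real.one_le_rpow hm (by linarith)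
  have h2 : (wid κ D n : ℝ) < (min (n : ℝ) D) ^ (κ / 4) + 1 := Nat.ceil_lt_add_one (by linarith)
  have h3 : (min (n : ℝ) D) ^ (κ / 4) ≤ wid κ D n := Nat.le_ceil _
  refine ⟨by linarith, h3, ?_⟩
  have : (0 : ℝ) < wid κ D n := by linarith
  exact_mod_cast this

theorem grid_le {κ R : ℝ} (hκ0 : 0 < κ) (hR : 0 ≤ R) {D n : ℕ} (hm : 1 ≤ min (n : ℝ) D) :
    2 * (grid κ R D n : ℝ) + 1 ≤ (4 * R + 3) * (min (n : ℝ) D) ^ (κ / 4) ∧
      (wid κ D n : ℝ) * R ≤ grid κ R D n := by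
  obtain ⟨h1, h2, h3⟩ := wid_le hκ0 hm
  have h0 : 1 ≤ (min (n : ℝ) D) ^ (κ / 4) := Real.one_le_rpow hm (by linarith)
  have h4 : (grid κ R D n : ℝ) < (wid κ D n : ℝ) * R + 1 :=
    Nat.ceil_lt_add_one (by positivity)
  refine ⟨?_, Nat.le_ceil _⟩
  have h5 : (wid κ D n : ℝ) * R ≤ 2 * (min (n : ℝ) D) ^ (κ / 4) * R :=
    mul_le_mul_of_nonneg_right h1 hR
  nlinarith

/-- the exceptional set at the scale `n` -/
noncomputable def excAt (κ R : ℝ) (pr : ℕ → ℕ) (α β : ℕ → ℝ) (s : Finset ℤ) (D n : ℕ) :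
    Finset ℤ :=
  open Classical in
  s.filter (fun d => n * (min (n : ℝ) D) ^ (-κ) < |TT pr (fun _ => 1) n d|) ∪
    (Finset.Icc (-(grid κ R D n : ℤ)) (grid κ R D n) ×ˢ
      Finset.Icc (-(grid κ R D n : ℤ)) (grid κ R D n)).biUnion fun u =>
        s.filter (fun d => n * (min (n : ℝ) D) ^ (-κ) <
          |TT pr (boxFun α β (wid κ D n) u) n d|)

theorem card_excAt (h : PrimeSeq pr C) {s : Finset ℤ} {D : ℕ} (hs : SqfSet s D) (hD : 8 ≤ D)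
    {κ : ℝ} (hκ0 : 0 < κ) (hκ : κ ≤ 1 / 15) {R : ℝ} (hR : 0 ≤ R) (α β : ℕ → ℝ) {n : ℕ}
    (hn : OK C κ pr D n) :
    ((excAt κ R pr α β s D n).card : ℝ) ≤
      (4 * (1 + (4 * R + 3) ^ 2)) * (D : ℝ) ^ (21 * κ) := by
  classical
  obtain ⟨hn1, hm3, H1, H2⟩ := hn
  have hD8 : (8 : ℝ) ≤ D := by exact_mod_cast hD
  have hD1 : (1 : ℝ) ≤ D := by linarith
  have hD0 : (0 : ℝ) < D := by linarith
  have hm1 : 1 ≤ min (n : ℝ) D := by linarith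
  obtain ⟨hg1, _⟩ := grid_le (R := R) hκ0 hR hm1
  set J : ℕ := grid κ R D n with hJ
  set I : Finset (ℤ × ℤ) := Finset.Icc (-(J : ℤ)) J ×ˢ Finset.Icc (-(J : ℤ)) J with hI
  have hcardI : (I.card : ℝ) = (2 * J + 1) ^ 2 := by
    rw [hI, card_product, Int.card_Icc]
    have : ((J : ℤ) + 1 - -(J : ℤ)).toNat = 2 * J + 1 := by omega
    rw [this]
    push_cast; ring
  have hone := core h hs hD (g := fun _ => 1) (fun _ => by simp) hκ0 hκ hn1 rfl hm3 H1 H2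
  have hbox := fun u => core h hs hD (g := boxFun α β (wid κ D n) u)
    (abs_boxFun_le α β _ u) hκ0 hκ hn1 rfl hm3 H1 H2
  have hmD : (min (n : ℝ) D) ^ (κ / 4) ≤ (D : ℝ) ^ (κ / 4) :=
    Real.rpow_le_rpow (by linarith) (min_le_right _ _) (by linarith)
  have hI2 : (I.card : ℝ) ≤ (4 * R + 3) ^ 2 * (D : ℝ) ^ (κ / 2) := by
    rw [hcardI]
    calc (2 * (J : ℝ) + 1) ^ 2 ≤ ((4 * R + 3) * (min (n : ℝ) D) ^ (κ / 4)) ^ 2 :=
          pow_le_pow_left₀ (by positivity) hg1 2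
      _ ≤ ((4 * R + 3) * (D : ℝ) ^ (κ / 4)) ^ 2 := by gcongr
      _ = (4 * R + 3) ^ 2 * (D : ℝ) ^ (κ / 2) := by
          rw [mul_pow, ← Real.rpow_natCast, ← Real.rpow_natCast, ← Real.rpow_mul hD0.le]
          norm_num
          left
          ring_nf
  have h1 : ((excAt κ R pr α β s D n).card : ℝ) ≤
      4 * (D : ℝ) ^ (20 * κ) + I.card * (4 * (D : ℝ) ^ (20 * κ)) := by
    have e1 : (excAt κ R pr α β s D n).card ≤
        (s.filter (fun d => n * (min (n : ℝ) D) ^ (-κ) < |TT pr (fun _ => 1) n d|)).card +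
        ∑ u ∈ I, (s.filter (fun d => n * (min (n : ℝ) D) ^ (-κ) <
          |TT pr (boxFun α β (wid κ D n) u) n d|)).card := by
      unfold excAt
      exact (card_union_le _ _).trans (Nat.add_le_add_left card_biUnion_le _)
    calc ((excAt κ R pr α β s D n).card : ℝ) ≤
          (((s.filter (fun d => n * (min (n : ℝ) D) ^ (-κ) < |TT pr (fun _ => 1) n d|)).card +
          ∑ u ∈ I, (s.filter (fun d => n * (min (n : ℝ) D) ^ (-κ) <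
            |TT pr (boxFun α β (wid κ D n) u) n d|)).card : ℕ) : ℝ) := by exact_mod_cast e1
      _ ≤ 4 * (D : ℝ) ^ (20 * κ) + ∑ u ∈ I, 4 * (D : ℝ) ^ (20 * κ) := by
          push_cast
          exact add_le_add hone (sum_le_sum fun u _ => hbox u)
      _ = _ := by rw [sum_const, nsmul_eq_mul]
  have h20 : 0 ≤ (D : ℝ) ^ (20 * κ) := Real.rpow_nonneg hD0.le _
  have h2 : (D : ℝ) ^ (20 * κ) ≤ (D : ℝ) ^ (21 * κ) :=
    Real.rpow_le_rpow_of_exponent_le hD1 (by linarith)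
  have h3 : (D : ℝ) ^ (κ / 2) * (D : ℝ) ^ (20 * κ) ≤ (D : ℝ) ^ (21 * κ) := by
    rw [← Real.rpow_add hD0]
    exact Real.rpow_le_rpow_of_exponent_le hD1 (by linarith)
  calc ((excAt κ R pr α β s D n).card : ℝ) ≤
        4 * (D : ℝ) ^ (20 * κ) + I.card * (4 * (D : ℝ) ^ (20 * κ)) := h1
    _ ≤ 4 * (D : ℝ) ^ (20 * κ) + ((4 * R + 3) ^ 2 * (D : ℝ) ^ (κ / 2)) *
          (4 * (D : ℝ) ^ (20 * κ)) := by gcongr
    _ = 4 * (D : ℝ) ^ (20 * κ) + (4 * (4 * R + 3) ^ 2) * ((D : ℝ) ^ (κ / 2) *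
          (D : ℝ) ^ (20 * κ)) := by ring
    _ ≤ 4 * (D : ℝ) ^ (21 * κ) + (4 * (4 * R + 3) ^ 2) * (D : ℝ) ^ (21 * κ) := by gcongr
    _ = _ := by ring

/-- outside the exceptional set at the scale `n`, all Lipschitz functions are controlled -/
theorem good_at {s : Finset ℤ} {D : ℕ} {κ : ℝ} (hκ0 : 0 < κ)
    {R : ℝ} (hR : 0 ≤ R) (α β : ℕ → ℝ) {n : ℕ} (hn : OK C κ pr D n) {d : ℤ} (hd : d ∈ s)
    (hd2 : d ∉ excAt κ R pr α β s D n) :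
    |TT pr (fun _ => 1) n d| ≤ n * (min (n : ℝ) D) ^ (-κ) ∧ ∀ H : ℝ → ℝ → ℝ, LipR R H →
      |TT pr (fun p => H (α p) (β p)) n d| ≤
        ((4 * R + 3) ^ 2 + 2) * (n * (min (n : ℝ) D) ^ (-(κ / 4))) := by
  classical
  obtain ⟨hn1, hm3, H1, H2⟩ := hn
  unfold excAt at hd2
  rw [mem_union, not_or, mem_filter, mem_biUnion] at hd2
  obtain ⟨h1, h2⟩ := hd2
  have h1' : |TT pr (fun _ => 1) n d| ≤ n * (min (n : ℝ) D) ^ (-κ) := by
    by_contra hlt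
    exact h1 ⟨hd, not_le.1 hlt⟩
  refine ⟨h1', fun H hH => ?_⟩
  set m : ℝ := min (n : ℝ) D with hm
  have hm1 : 1 ≤ m := by linarith
  have hm0 : 0 < m := by linarith
  have hn0 : (0 : ℝ) ≤ n := Nat.cast_nonneg n
  obtain ⟨hw1, hw2, hw3⟩ := wid_le hκ0 (n := n) (D := D) hm1
  obtain ⟨hg1, hg2⟩ := grid_le (R := R) hκ0 hR (n := n) (D := D) hm1
  have hT := TT_lip (pr := pr) hH α β hw3 hg2 (n := n) (d := d) (b := n * m ^ (-κ))
    (by positivity) (fun u hu => by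
      by_contra hlt
      exact h2 ⟨u, hu, mem_filter.2 ⟨hd, not_le.1 hlt⟩⟩)
  refine hT.trans ?_
  set y : ℝ := m ^ (κ / 4) with hy
  have hy1 : 1 ≤ y := Real.one_le_rpow hm1 (by linarith)
  have hy0 : 0 < y := by linarith
  have e1 : m ^ (-κ) = (y ^ 4)⁻¹ := by
    rw [Real.rpow_neg hm0.le, hy, ← Real.rpow_natCast, ← Real.rpow_mul hm0.le]
    norm_num
  have e2 : m ^ (-(κ / 4)) = y⁻¹ := by rw [Real.rpow_neg hm0.le]
  rw [e1, e2]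
  have hyw : y ≤ wid κ D n := hw2
  have hw0 : (0 : ℝ) < wid κ D n := by linarith
  have f1 : (2 * (grid κ R D n : ℝ) + 1) ^ 2 * (n * (y ^ 4)⁻¹) ≤ (4 * R + 3) ^ 2 * (n * y⁻¹) := by
    calc (2 * (grid κ R D n : ℝ) + 1) ^ 2 * (n * (y ^ 4)⁻¹) ≤
          ((4 * R + 3) * y) ^ 2 * (n * (y ^ 4)⁻¹) := by gcongr
      _ = (4 * R + 3) ^ 2 * (n * (y ^ 2)⁻¹) := by field_simp
      _ ≤ (4 * R + 3) ^ 2 * (n * y⁻¹) := by
          gcongr
          nlinarith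
  have f2 : 2 / (wid κ D n : ℝ) * n ≤ 2 * (n * y⁻¹) := by
    have : 2 / (wid κ D n : ℝ) ≤ 2 / y := div_le_div_of_nonneg_left (by norm_num) hy0 hyw
    calc 2 / (wid κ D n : ℝ) * n ≤ 2 / y * n := mul_le_mul_of_nonneg_right this hn0
      _ = _ := by rw [div_eq_mul_inv]; ring
  calc _ ≤ (4 * R + 3) ^ 2 * (n * y⁻¹) + 2 * (n * y⁻¹) := add_le_add f1 f2
    _ = _ := by ring

end Pool.Agent.Work.MP_6dc561_nt.PS
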