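import Mathlib

/-!
# Many squarefree integers with prescribed Legendre symbols at the small primes
-/

set_option autoImplicit false

open Finset

namespace Pool.Agent.Work.MP_6dc561_nt.PS

open scoped NumberTheorySymbols

theorem exists_symbol {p : ℕ} (hp : p.Prime) (hp2 : p ≠ 2) {e : ℤ} (he : e = 1 ∨ e = -1) :
    ∃ t : ℕ, jacobiSym t p = e := by
  have : Fact p.Prime := ⟨hp⟩
  rcases he with rfl | rfl
  · exact ⟨1, by rw [Nat.cast_one, jacobiSym.one_left]⟩
  · have hchar : ringChar (ZMod p) ≠ 2 := by rw [ZMod.ringChar_zmod_n]; exact hp2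
    obtain ⟨r, hr⟩ := FiniteField.exists_nonsquare (F := ZMod p) hchar
    refine ⟨r.val, ?_⟩
    rw [← jacobiSym.legendreSym.to_jacobiSym, legendreSym.eq_neg_one_iff]
    rw [Int.cast_natCast, ZMod.natCast_zmod_val]
    exact hr

/-- the Chinese remainder theorem -/
theorem exists_residue (s : ℕ → ℤ) (hs : ∀ p, s p = 1 ∨ s p = -1) (P : Finset ℕ)
    (hP : ∀ p ∈ P, p.Prime ∧ p ≠ 2) :
    ∃ r : ℕ, r % 4 = 1 ∧ ∀ p ∈ P, jacobiSym r p = s p := by
  classical
  induction P using Finset.induction_on with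
  | empty => exact ⟨1, rfl, fun p hp => absurd hp (notMem_empty _)⟩
  | insert p P hpP ih =>
    obtain ⟨r, hr4, hr⟩ := ih fun q hq => hP q (mem_insert_of_mem hq)
    obtain ⟨hp, hp2⟩ := hP p (mem_insert_self _ _)
    obtain ⟨t, ht⟩ := exists_symbol hp hp2 (hs p)
    have hcop : Nat.Coprime (4 * ∏ q ∈ P, q) p := by
      apply Nat.Coprime.mul_left
      · have : Nat.Coprime (2 ^ 2) p :=
          Nat.Coprime.pow_left 2 ((Nat.coprime_primes Nat.prime_two hp).2 (Ne.symm hp2))
        simpa using this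
      · apply Nat.Coprime.prod_left
        intro q hq
        have hq' := (hP q (mem_insert_of_mem hq)).1
        exact (Nat.coprime_primes hq' hp).2 fun h => hpP (h ▸ hq)
    obtain ⟨u, hu1, hu2⟩ := Nat.chineseRemainder hcop r t
    have hJ : ∀ {q a b : ℕ}, a ≡ b [MOD q] → jacobiSym a q = jacobiSym b q := by
      intro q a b hab
      apply jacobiSym.mod_left'
      have := (Int.natCast_modEq_iff).2 hab
      exact this
    refine ⟨u, ?_, fun q hq => ?_⟩
    · have h1 : u ≡ r [MOD 4] := hu1.of_mul_right _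
      have h2 : u % 4 = r % 4 := h1
      omega
    · rcases mem_insert.1 hq with rfl | hq
      · rw [hJ hu2, ht]
      · have h1 : u ≡ r [MOD q] := by
          have h2 : u ≡ r [MOD ∏ q ∈ P, q] := hu1.of_mul_left _
          exact h2.of_dvd (dvd_prod_of_mem _ hq)
        rw [hJ h1, hr q hq]

/-- a set of integers in `[1, D]` that are congruent modulo `M` -/
theorem card_congr_le {A : Finset ℕ} {D M : ℕ} (hA : ∀ a ∈ A, a ≤ D) (_hM : 0 < M)
    (hc : ∀ a ∈ A, ∀ b ∈ A, a ≡ b [MOD M]) : (A.card : ℝ) ≤ D / M + 1 := by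
  have h1 : A.card ≤ (range (D / M + 1)).card := by
    apply card_le_card_of_injOn (fun a => a / M)
    · intro a ha
      have : a / M ≤ D / M := Nat.div_le_div_right (hA a ha)
      simp only [coe_range, Set.mem_Iio]
      omega
    · intro a ha b hb hab
      have h2 : a % M = b % M := hc a ha b hb
      have h3 : a / M = b / M := hab
      rw [← Nat.div_add_mod a M, ← Nat.div_add_mod b M, h2, h3]
  rw [card_range] at h1
  calc (A.card : ℝ) ≤ ((D / M + 1 : ℕ) : ℝ) := by exact_mod_cast h1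
    _ = ((D / M : ℕ) : ℝ) + 1 := by push_cast; ring
    _ ≤ _ := by
      have := @Nat.cast_div_le ℝ _ _ _ D M
      linarith

theorem sum_inv_sq_le (N : ℕ) : ∑ m ∈ Finset.Icc 3 N, (1 : ℝ) / (m : ℝ) ^ 2 ≤ 1 / 2 := by
  have h1 : ∀ N : ℕ, 2 ≤ N → ∑ m ∈ Finset.Icc 3 N, (1 : ℝ) / (m : ℝ) ^ 2 ≤ 1 / 2 - 1 / N := by
    intro N hN
    induction N, hN using Nat.le_induction with
    | base => norm_num
    | succ n hn ih =>
      rw [Finset.sum_Icc_succ_top (by omega)]
      have hn0 : (0 : ℝ) < n := by exact_mod_cast (by omega : 0 < n)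
      have h2 : (1 : ℝ) / ((n + 1 : ℕ) : ℝ) ^ 2 ≤ 1 / n - 1 / ((n + 1 : ℕ) : ℝ) := by
        push_cast
        rw [div_sub_div _ _ hn0.ne' (by positivity), div_le_div_iff₀ (by positivity) (by positivity)]
        nlinarith
      linarith
  by_cases hN : 2 ≤ N
  · have := h1 N hN
    have h2 : (0 : ℝ) ≤ 1 / N := by positivity
    linarith
  · rw [Finset.Icc_eq_empty (by omega)]
    norm_num

/-- counting squarefree integers with prescribed symbols -/
theorem count_lower (s : ℕ → ℤ) (hs : ∀ p, s p = 1 ∨ s p = -1) (P : Finset ℕ)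
    (hP : ∀ p ∈ P, p.Prime ∧ p ≠ 2) (D : ℕ) :
    (D : ℝ) / (2 * (4 * ∏ q ∈ P, q : ℕ)) - Real.sqrt D - 1 ≤
      ({d : ℤ | |d| ≤ D ∧ Squarefree d ∧ ∀ p ∈ P, jacobiSym d p = s p}.ncard : ℝ) := by
  classical
  obtain ⟨r, hr4, hr⟩ := exists_residue s hs P hP
  set Q : ℕ := 4 * ∏ q ∈ P, q with hQ
  have hprod0 : 0 < ∏ q ∈ P, q := prod_pos fun q hq => (hP q hq).1.pos
  have hQ0 : 0 < Q := by positivity
  have hQ0r : (0 : ℝ) < Q := by exact_mod_cast hQ0
  set A : Finset ℕ := (Finset.Icc 1 D).filter fun d => d ≡ r [MOD Q] with hA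
  have hr4Q : ∀ {d : ℕ}, d ≡ r [MOD Q] → d % 4 = 1 := by
    intro d hd
    have h1 : d ≡ r [MOD 4] := hd.of_mul_right _
    have h2 : d % 4 = r % 4 := h1
    omega
  have hJd : ∀ {d : ℕ}, d ≡ r [MOD Q] → ∀ p ∈ P, jacobiSym d p = s p := by
    intro d hd p hp
    have h1 : d ≡ r [MOD p] := by
      have h2 : d ≡ r [MOD ∏ q ∈ P, q] := hd.of_mul_left _
      exact h2.of_dvd (dvd_prod_of_mem _ hp)
    rw [← hr p hp]
    apply jacobiSym.mod_left'
    exact (Int.natCast_modEq_iff).2 h1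
  -- lower bound for `A`
  have hAcard : (D : ℝ) / Q - 1 ≤ A.card := by
    have h1 : (range (D / Q)).card ≤ A.card := by
      apply card_le_card_of_injOn (fun k => r % Q + k * Q)
      · intro k hk
        have hk' : k < D / Q := by simpa using hk
        have hrQ : r % Q < Q := Nat.mod_lt _ hQ0
        have hr0 : 0 < r % Q := by
          rcases Nat.eq_zero_or_pos (r % Q) with h | h
          · exfalso
            have h2 : Q ∣ r := Nat.dvd_of_mod_eq_zero h
            have h3 : 4 ∣ r := (Dvd.intro _ rfl).trans h2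
            omega
          · exact h
        have h3 : (k + 1) * Q ≤ D := by
          calc (k + 1) * Q ≤ D / Q * Q := Nat.mul_le_mul_right _ (by omega)
            _ ≤ D := Nat.div_mul_le_self _ _
        simp only [hA, coe_filter, Set.mem_ofPred_eq, Finset.mem_Icc]
        refine ⟨⟨by omega, by nlinarith⟩, ?_⟩
        show (r % Q + k * Q) % Q = r % Q
        rw [Nat.add_mul_mod_self_right, Nat.mod_mod]
      · intro a _ b _ hab
        have h2 : r % Q + a * Q = r % Q + b * Q := hab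
        have h3 : a * Q = b * Q := by omega
        exact Nat.eq_of_mul_eq_mul_right hQ0 h3
    rw [card_range] at h1
    have h2 : (D : ℝ) / Q < ((D / Q : ℕ) : ℝ) + 1 := by
      rw [div_lt_iff₀ hQ0r]
      have h3 : D < (D / Q + 1) * Q := by
        have := Nat.lt_div_mul_add (a := D) hQ0
        nlinarith
      exact_mod_cast h3
    have h3 : ((D / Q : ℕ) : ℝ) ≤ A.card := by exact_mod_cast h1
    linarith
  -- the multiples of `p ^ 2`
  set Bp : ℕ → Finset ℕ := fun p => A.filter fun d => p ^ 2 ∣ d with hBp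
  set T : Finset ℕ := (Finset.Icc 3 (Nat.sqrt D)).filter fun p => p.Prime ∧ p ∉ P with hT
  have hBpcard : ∀ p ∈ T, ((Bp p).card : ℝ) ≤ (D : ℝ) / Q * (1 / (p : ℝ) ^ 2) + 1 := by
    intro p hp
    rw [hT, mem_filter, Finset.mem_Icc] at hp
    obtain ⟨⟨hp3, hpD⟩, hpp, hpP⟩ := hp
    have hcop : Nat.Coprime Q (p ^ 2) := by
      apply Nat.Coprime.pow_right
      apply Nat.Coprime.mul_left
      · have : Nat.Coprime (2 ^ 2) p :=
          Nat.Coprime.pow_left 2 ((Nat.coprime_primes Nat.prime_two hpp).2 (by omega))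
        simpa using this
      · apply Nat.Coprime.prod_left
        intro q hq
        exact (Nat.coprime_primes (hP q hq).1 hpp).2 fun h => hpP (h ▸ hq)
    have h1 := card_congr_le (A := Bp p) (D := D) (M := Q * p ^ 2)
      (fun a ha => (Finset.mem_Icc.1 (mem_filter.1 (mem_filter.1 ha).1).1).2)
      (by positivity) (fun a ha b hb => by
        rw [hBp] at ha hb
        have ha' := mem_filter.1 ha
        have hb' := mem_filter.1 hb
        apply (Nat.modEq_and_modEq_iff_modEq_mul hcop).1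
        refine ⟨((mem_filter.1 ha'.1).2).trans ((mem_filter.1 hb'.1).2).symm, ?_⟩
        exact ((Nat.modEq_zero_iff_dvd).2 ha'.2).trans ((Nat.modEq_zero_iff_dvd).2 hb'.2).symm)
    calc ((Bp p).card : ℝ) ≤ D / ((Q * p ^ 2 : ℕ) : ℝ) + 1 := h1
      _ = _ := by push_cast; rw [div_mul_eq_div_div, mul_one_div]
  -- the squarefree elements of `A`
  have hsub : A ⊆ (A.filter fun d => Squarefree d) ∪ T.biUnion Bp := by
    intro d hd
    rw [mem_union]
    by_cases hsq : Squarefree d
    · exact Or.inl (mem_filter.2 ⟨hd, hsq⟩)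
    · right
      rw [Nat.squarefree_iff_prime_squarefree] at hsq
      push Not at hsq
      obtain ⟨p, hp, hpd⟩ := hsq
      rw [hA, mem_filter, Finset.mem_Icc] at hd
      obtain ⟨⟨hd1, hdD⟩, hdr⟩ := hd
      have hd4 := hr4Q hdr
      have hp2 : p ≠ 2 := by
        rintro rfl
        omega
      have hpP : p ∉ P := by
        intro hpP
        have h1 := hJd hdr p hpP
        have : Fact p.Prime := ⟨hp⟩
        have h2 : jacobiSym d p = 0 := by
          rw [← jacobiSym.legendreSym.to_jacobiSym, legendreSym.eq_zero_iff,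
            ZMod.intCast_zmod_eq_zero_iff_dvd]
          exact_mod_cast (Dvd.intro _ rfl).trans hpd
        rw [h2] at h1
        rcases hs p with h | h <;> rw [h] at h1 <;> norm_num at h1
      rw [mem_biUnion]
      refine ⟨p, ?_, ?_⟩
      · rw [hT, mem_filter, Finset.mem_Icc]
        have h1 : p * p ≤ D := (Nat.le_of_dvd (by omega) hpd).trans hdD
        refine ⟨⟨?_, Nat.le_sqrt.2 h1⟩, hp, hpP⟩
        have := hp.two_le
        omega
      · rw [hBp]
        refine mem_filter.2 ⟨?_, by rw [sq]; exact hpd⟩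
        rw [hA, mem_filter, Finset.mem_Icc]
        exact ⟨⟨hd1, hdD⟩, hdr⟩
  have h1 : (A.card : ℝ) ≤ (A.filter fun d => Squarefree d).card + ∑ p ∈ T, ((Bp p).card : ℝ) := by
    have e1 := (card_le_card hsub).trans (card_union_le _ _)
    have e2 := e1.trans (Nat.add_le_add_left card_biUnion_le _)
    exact_mod_cast e2
  have hsqrt : ((Nat.sqrt D : ℕ) : ℝ) ≤ Real.sqrt D := by
    apply Real.le_sqrt_of_sq_le
    exact_mod_cast Nat.sqrt_le' D
  have h2 : ∑ p ∈ T, ((Bp p).card : ℝ) ≤ (D : ℝ) / Q * (1 / 2) + Real.sqrt D := by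
    calc ∑ p ∈ T, ((Bp p).card : ℝ) ≤ ∑ p ∈ T, ((D : ℝ) / Q * (1 / (p : ℝ) ^ 2) + 1) :=
          sum_le_sum hBpcard
      _ ≤ ∑ p ∈ Finset.Icc 3 (Nat.sqrt D), ((D : ℝ) / Q * (1 / (p : ℝ) ^ 2) + 1) :=
          sum_le_sum_of_subset_of_nonneg (filter_subset _ _) fun p _ _ => by positivity
      _ = (D : ℝ) / Q * ∑ p ∈ Finset.Icc 3 (Nat.sqrt D), (1 / (p : ℝ) ^ 2) +
            ((Finset.Icc 3 (Nat.sqrt D)).card : ℝ) := by
          rw [sum_add_distrib, ← mul_sum, sum_const, nsmul_eq_mul, mul_one]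
      _ ≤ (D : ℝ) / Q * (1 / 2) + Real.sqrt D := by
          have e1 := sum_inv_sq_le (Nat.sqrt D)
          have e2 : ((Finset.Icc 3 (Nat.sqrt D)).card : ℝ) ≤ Real.sqrt D := by
            refine le_trans ?_ hsqrt
            rw [Nat.card_Icc]
            exact_mod_cast (by omega : Nat.sqrt D + 1 - 3 ≤ Nat.sqrt D)
          have e3 : (0 : ℝ) ≤ D / Q := by positivity
          exact add_le_add (mul_le_mul_of_nonneg_left e1 e3) e2
  -- transfer to the set of integers
  have h3 : ((A.filter fun d => Squarefree d).card : ℝ) ≤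
      ({d : ℤ | |d| ≤ D ∧ Squarefree d ∧ ∀ p ∈ P, jacobiSym d p = s p}.ncard : ℝ) := by
    have hfin : {d : ℤ | |d| ≤ D ∧ Squarefree d ∧ ∀ p ∈ P, jacobiSym d p = s p}.Finite := by
      apply (Finset.finite_toSet (Finset.Icc (-(D : ℤ)) D)).subset
      intro d hd
      rw [Finset.coe_Icc, Set.mem_Icc, ← abs_le]
      exact hd.1
    have e1 : (((A.filter fun d => Squarefree d).image fun n : ℕ => (n : ℤ) : Finset ℤ) : Set ℤ) ⊆
        {d : ℤ | |d| ≤ D ∧ Squarefree d ∧ ∀ p ∈ P, jacobiSym d p = s p} := by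
      intro d hd
      rw [mem_coe, mem_image] at hd
      obtain ⟨n, hn, rfl⟩ := hd
      obtain ⟨hnA, hnsq⟩ := mem_filter.1 hn
      rw [hA, mem_filter, Finset.mem_Icc] at hnA
      refine ⟨?_, Int.squarefree_natCast.2 hnsq, fun p hp => hJd hnA.2 p hp⟩
      rw [Nat.abs_cast]
      exact_mod_cast hnA.1.2
    have e2 := Set.ncard_le_ncard e1 hfin
    rw [Set.ncard_coe_finset, card_image_of_injective _ Nat.cast_injective] at e2
    exact_mod_cast e2
  have h4 : (D : ℝ) / (2 * (Q : ℝ)) = D / Q * (1 / 2) := by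
    rw [mul_comm 2, ← div_div, div_eq_mul_one_div (D / (Q : ℝ)) 2]
  rw [h4]
  linarith

/-- For every `ε > 0` there is `c > 0` such that for every choice of signs, at least
`c D^(1 - ε)` squarefree `d` with `|d| ≤ D` have the prescribed Legendre symbols at all odd
primes up to `c log D`. -/
theorem sharp {ε : ℝ} (hε : 0 < ε) : ∃ c : ℝ, 0 < c ∧ ∀ D : ℕ, 1 ≤ D → ∀ s : ℕ → ℤ,
    (∀ p, s p = 1 ∨ s p = -1) → c * (D : ℝ) ^ (1 - ε) ≤
      ({d : ℤ | |d| ≤ D ∧ Squarefree d ∧ ∀ p : ℕ, p.Prime → p ≠ 2 →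
        (p : ℝ) ≤ c * Real.log D → jacobiSym d p = s p}.ncard : ℝ) := by
  classical
  set e : ℝ := min ε (1 / 4) with he
  have he0 : 0 < e := lt_min hε (by norm_num)
  have he4 : e ≤ 1 / 4 := min_le_right _ _
  have heε : e ≤ ε := min_le_left _ _
  set c : ℝ := min (e / 4) (1 / 2 ^ 14) with hc
  have hc0 : 0 < c := lt_min (by positivity) (by positivity)
  have hce : c ≤ e / 4 := min_le_left _ _
  have hc14 : c ≤ 1 / 2 ^ 14 := min_le_right _ _
  refine ⟨c, hc0, fun D hD s hs => ?_⟩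
  have hD1 : (1 : ℝ) ≤ D := by exact_mod_cast hD
  have hD0 : (0 : ℝ) < D := by linarith
  have hlog0 : 0 ≤ Real.log D := Real.log_nonneg hD1
  have hmono : c * (D : ℝ) ^ (1 - ε) ≤ c * (D : ℝ) ^ (1 - e) := by
    apply mul_le_mul_of_nonneg_left _ hc0.le
    exact Real.rpow_le_rpow_of_exponent_le hD1 (by linarith)
  refine hmono.trans ?_
  set y : ℕ := ⌊c * Real.log D⌋₊ with hy
  set P : Finset ℕ := (Finset.range (y + 1)).filter fun p => p.Prime ∧ p ≠ 2 with hP
  have hset : {d : ℤ | |d| ≤ D ∧ Squarefree d ∧ ∀ p : ℕ, p.Prime → p ≠ 2 →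
        (p : ℝ) ≤ c * Real.log D → jacobiSym d p = s p} =
      {d : ℤ | |d| ≤ D ∧ Squarefree d ∧ ∀ p ∈ P, jacobiSym d p = s p} := by
    ext d
    constructor
    · rintro ⟨h1, h2, h3⟩
      refine ⟨h1, h2, fun p hp => ?_⟩
      rw [hP, mem_filter, mem_range] at hp
      refine h3 p hp.2.1 hp.2.2 ?_
      calc (p : ℝ) ≤ y := by exact_mod_cast (by omega : p ≤ y)
        _ ≤ _ := Nat.floor_le (by positivity)
    · rintro ⟨h1, h2, h3⟩
      refine ⟨h1, h2, fun p hp hp2 hpy => h3 p ?_⟩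
      rw [hP, mem_filter, mem_range]
      have : p ≤ y := Nat.le_floor hpy
      exact ⟨by omega, hp, hp2⟩
  rw [hset]
  have hcount := count_lower s hs P (fun p hp => (mem_filter.1 hp).2) D
  by_cases hsmall : D < 2 ^ 14
  · -- a single element is enough
    have hPe : P = ∅ := by
      rw [hP, filter_eq_empty_iff]
      rintro p hp ⟨hpp, hp2⟩
      rw [mem_range] at hp
      have hDr : (D : ℝ) ≤ 2 ^ 14 := by exact_mod_cast hsmall.le
      have h1 : Real.log D ≤ D := Real.log_le_self hD0.le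
      have h2 : c * Real.log D ≤ 1 := by
        calc c * Real.log D ≤ 1 / 2 ^ 14 * 2 ^ 14 :=
              mul_le_mul hc14 (h1.trans hDr) hlog0 (by positivity)
          _ = 1 := by norm_num
      have h3 : y ≤ 1 := by
        rw [hy]
        exact_mod_cast (Nat.floor_le (by positivity)).trans h2
      have := hpp.two_le
      omega
    have hfin : {d : ℤ | |d| ≤ D ∧ Squarefree d ∧ ∀ p ∈ P, jacobiSym d p = s p}.Finite := by
      apply (Finset.finite_toSet (Finset.Icc (-(D : ℤ)) D)).subset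
      intro d hd
      rw [Finset.coe_Icc, Set.mem_Icc, ← abs_le]
      exact hd.1
    have hone : (1 : ℤ) ∈ {d : ℤ | |d| ≤ D ∧ Squarefree d ∧ ∀ p ∈ P, jacobiSym d p = s p} := by
      refine ⟨by rw [abs_one]; exact_mod_cast hD, squarefree_one, fun p hp => ?_⟩
      rw [hPe] at hp
      exact absurd hp (notMem_empty _)
    have h1 : 1 ≤ {d : ℤ | |d| ≤ D ∧ Squarefree d ∧ ∀ p ∈ P, jacobiSym d p = s p}.ncard :=
      (Set.ncard_pos hfin).2 ⟨1, hone⟩
    have h2 : c * (D : ℝ) ^ (1 - e) ≤ 1 := by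
      have h3 : (D : ℝ) ^ (1 - e) ≤ D := by
        calc (D : ℝ) ^ (1 - e) ≤ (D : ℝ) ^ (1 : ℝ) :=
              Real.rpow_le_rpow_of_exponent_le hD1 (by linarith)
          _ = D := Real.rpow_one _
      have hDr : (D : ℝ) ≤ 2 ^ 14 := by exact_mod_cast hsmall.le
      calc c * (D : ℝ) ^ (1 - e) ≤ 1 / 2 ^ 14 * 2 ^ 14 :=
            mul_le_mul hc14 (h3.trans hDr) (by positivity) (by positivity)
        _ = 1 := by norm_num
    exact h2.trans (by exact_mod_cast h1)
  · push Not at hsmall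
    have hDbig : (2 : ℝ) ^ 14 ≤ D := by exact_mod_cast hsmall
    refine le_trans ?_ hcount
    -- the modulus
    have hQ : ((4 * ∏ q ∈ P, q : ℕ) : ℝ) ≤ 4 * (D : ℝ) ^ (e / 2) := by
      have h1 : ∏ q ∈ P, q ≤ primorial y := by
        unfold primorial
        apply prod_le_prod_of_subset_of_one_le'
        · intro p hp
          rw [hP, mem_filter] at hp
          rw [mem_filter]
          exact ⟨hp.1, hp.2.1⟩
        · intro p hp _
          exact (mem_filter.1 hp).2.one_lt.le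
      have h2 : primorial y ≤ 4 ^ y := primorial_le_four_pow y
      have h3 : ((4 : ℝ)) ^ y ≤ (D : ℝ) ^ (e / 2) := by
        have hylog : (y : ℝ) ≤ c * Real.log D := Nat.floor_le (by positivity)
        have hlog4 : Real.log 4 ≤ 2 := by
          have : (4 : ℝ) = 2 ^ 2 := by norm_num
          rw [this, Real.log_pow]
          have := Real.log_two_lt_d9
          push_cast
          linarith
        rw [← Real.log_le_log_iff (by positivity) (by positivity), Real.log_pow,
          Real.log_rpow hD0]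
        have hlog40 : 0 ≤ Real.log 4 := Real.log_nonneg (by norm_num)
        calc (y : ℝ) * Real.log 4 ≤ (c * Real.log D) * 2 :=
              mul_le_mul hylog hlog4 hlog40 (by positivity)
          _ ≤ ((e / 4) * Real.log D) * 2 := by gcongr
          _ = _ := by ring
      push_cast
      have h4 : ((∏ q ∈ P, q : ℕ) : ℝ) ≤ (4 : ℝ) ^ y := by exact_mod_cast h1.trans h2
      push_cast at h4
      linarith
    have hQpos : (0 : ℝ) < ((4 * ∏ q ∈ P, q : ℕ) : ℝ) := by
      have : 0 < 4 * ∏ q ∈ P, q := by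
        have := prod_pos fun q (hq : q ∈ P) => ((mem_filter.1 hq).2.1).pos
        omega
      exact_mod_cast this
    have h1 : (D : ℝ) ^ (1 - e / 2) / 8 ≤ D / (2 * ((4 * ∏ q ∈ P, q : ℕ) : ℝ)) := by
      have e1 : (D : ℝ) ^ (1 - e / 2) = D / (D : ℝ) ^ (e / 2) := by
        rw [Real.rpow_sub hD0, Real.rpow_one]
      rw [e1, div_div]
      apply div_le_div_of_nonneg_left hD0.le (by positivity)
      linarith
    have h78 : (D : ℝ) ^ (7 / 8 : ℝ) ≤ (D : ℝ) ^ (1 - e / 2) :=
      Real.rpow_le_rpow_of_exponent_le hD1 (by linarith)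
    have h2 : Real.sqrt D + 1 ≤ (D : ℝ) ^ (7 / 8 : ℝ) / 16 := by
      have e1 : (D : ℝ) ^ (7 / 8 : ℝ) = Real.sqrt D * (D : ℝ) ^ (3 / 8 : ℝ) := by
        rw [Real.sqrt_eq_rpow, ← Real.rpow_add hD0]; norm_num
      have e2 : (32 : ℝ) ≤ (D : ℝ) ^ (3 / 8 : ℝ) := by
        calc (32 : ℝ) ≤ ((2 : ℝ) ^ 14) ^ (3 / 8 : ℝ) := by
              rw [← Real.rpow_natCast, ← Real.rpow_mul (by norm_num)]
              have : (32 : ℝ) = 2 ^ (5 : ℝ) := by norm_num
              rw [this]
              exact Real.rpow_le_rpow_of_exponent_le (by norm_num) (by norm_num)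
          _ ≤ _ := Real.rpow_le_rpow (by positivity) hDbig (by norm_num)
      have e3 : 1 ≤ Real.sqrt D := Real.one_le_sqrt.2 hD1
      rw [e1]
      nlinarith
    have h3 : c * (D : ℝ) ^ (1 - e) ≤ (D : ℝ) ^ (1 - e / 2) / 16 := by
      have e1 : (D : ℝ) ^ (1 - e) ≤ (D : ℝ) ^ (1 - e / 2) :=
        Real.rpow_le_rpow_of_exponent_le hD1 (by linarith)
      have e2 : c ≤ 1 / 16 := hc14.trans (by norm_num)
      have e3 : 0 ≤ (D : ℝ) ^ (1 - e) := Real.rpow_nonneg hD0.le _
      calc c * (D : ℝ) ^ (1 - e) ≤ 1 / 16 * (D : ℝ) ^ (1 - e / 2) :=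
            mul_le_mul e2 e1 e3 (by norm_num)
        _ = _ := by ring
    linarith

end Pool.Agent.Work.MP_6dc561_nt.PS
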