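import Pool.Agent.Work.MP_6dc561_nt.PS.Final
import Pool.Agent.Work.MP_6dc561_nt.PS.Sharp

/-!
# The main theorem
-/

set_option autoImplicit false

open NumberField IsDedekindDomain Ideal Polynomial Finset

namespace Pool.Agent.Work.MP_6dc561_nt.PS

open Pool.Agent.Work.MP_6dc561_nt.AA
open Pool.Agent.Work.MP_6dc561_nt.BC (not_isSquare avg_compare)

/-- the number of primes of the sequence that divide `d` -/
theorem WW_le_log {pr : ℕ → ℕ} {C : ℝ} (h : PrimeSeq pr C) {d : ℤ} (hd : d ≠ 0) {D : ℕ}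
    (hdD : |d| ≤ D) (n : ℕ) : (WW pr n d : ℝ) ≤ 2 * Real.log D := by
  classical
  set S : Finset ℕ := ((range n).filter fun i => (pr i : ℤ) ∣ d).image pr with hS
  have hcard : WW pr n d = S.card := by
    rw [hS, card_image_of_injective _ h.mono.injective]
    rfl
  have hSp : ∀ p ∈ S, p.Prime ∧ p ∣ d.natAbs := by
    intro p hp
    rw [hS, mem_image] at hp
    obtain ⟨i, hi, rfl⟩ := hp
    exact ⟨h.prime i, Int.natCast_dvd.1 (mem_filter.1 hi).2⟩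
  have hdvd : ∏ p ∈ S, p ∣ d.natAbs :=
    Finset.prod_primes_dvd _ (fun p hp => (hSp p hp).1.prime) fun p hp => (hSp p hp).2
  have hle : ∏ p ∈ S, p ≤ d.natAbs := Nat.le_of_dvd (Int.natAbs_pos.2 hd) hdvd
  have h2 : 2 ^ S.card ≤ ∏ p ∈ S, p := by
    calc 2 ^ S.card = ∏ _p ∈ S, 2 := by rw [prod_const]
      _ ≤ ∏ p ∈ S, p := Finset.prod_le_prod' fun p hp => (hSp p hp).1.two_le
  have h3 : d.natAbs ≤ D := by
    rw [Int.abs_eq_natAbs] at hdD
    exact_mod_cast hdD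
  have h4 : (2 : ℝ) ^ S.card ≤ D := by exact_mod_cast (h2.trans hle).trans h3
  have h5 : (S.card : ℝ) * Real.log 2 ≤ Real.log D := by
    rw [← Real.log_pow]
    exact Real.log_le_log (by positivity) h4
  have h6 := Real.log_two_gt_d9
  rw [hcard]
  have h7 : (0 : ℝ) ≤ S.card := Nat.cast_nonneg _
  nlinarith

/-- the analytic input at the point `x` -/
theorem good_x (f : ℤ[X]) (hinf : (Set.ofPred (· ∈ goodQ f 1)).Infinite) {C₀ : ℝ}
    (hC₀ : PrimeSeq (gpr f) C₀) {κ₀ : ℝ} (hκ0 : 0 < κ₀) (hκ : κ₀ ≤ 1 / 15) (N₀ : ℕ) :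
    ∃ X₀ : ℕ, 1 ≤ X₀ ∧ ∀ D : ℕ, 21 ≤ D → ∀ x : ℕ, X₀ ≤ x →
      (Real.log D) ^ (1 / (κ₀ / 8)) ≤ x → (x : ℝ) ≤ Real.exp ((D : ℝ) ^ (κ₀ / 8)) →
      1 ≤ (goodUpToQ f 1 x).card ∧ N₀ ≤ (goodUpToQ f 1 x).card ∧
      2 * (5 * Real.log D) ^ (1 / κ₀) ≤ (goodUpToQ f 1 x).card ∧
      Real.log (goodUpToQ f 1 x).card ≤ (D : ℝ) ^ (κ₀ / 2) ∧
      (min ((goodUpToQ f 1 x).card : ℝ) D) ^ (-(κ₀ / 4)) ≤ (min (x : ℝ) D) ^ (-(κ₀ / 8)) ∧
      2 * Real.log D ≤ (min (x : ℝ) D) ^ (-(κ₀ / 8)) * (goodUpToQ f 1 x).card ∧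
      Real.sqrt x ≤ (min (x : ℝ) D) ^ (-(κ₀ / 8)) * (goodUpToQ f 1 x).card := by
  classical
  have hCp := hC₀.pos
  obtain ⟨x₁, hx₁⟩ := exists_nat_ge ((6 * C₀) ^ 12)
  refine ⟨max (max (gpr f 0) (N₀ ^ 2)) (max x₁ 16), ?_, fun D hD x hx hx1 hx2 => ?_⟩
  · exact le_trans (by norm_num) ((le_max_right x₁ 16).trans (le_max_right _ _))
  have hD21 : (21 : ℝ) ≤ D := by exact_mod_cast hD
  have hD0 : (0 : ℝ) < D := by linarith
  have hD1 : (1 : ℝ) ≤ D := by linarith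
  have hx16 : (16 : ℝ) ≤ x := by
    exact_mod_cast ((le_max_right x₁ 16).trans (le_max_right _ _)).trans hx
  have hx0 : (0 : ℝ) < x := by linarith
  have hx1' : (1 : ℝ) ≤ x := by linarith
  have hxx₁ : (6 * C₀) ^ 12 ≤ x := hx₁.trans (by
    exact_mod_cast ((le_max_left x₁ 16).trans (le_max_right _ _)).trans hx)
  have hxN : ((N₀ : ℝ)) ^ 2 ≤ x := by
    exact_mod_cast ((le_max_right (gpr f 0) (N₀ ^ 2)).trans (le_max_left _ _)).trans hx
  have hxg : gpr f 0 ≤ x := ((le_max_left (gpr f 0) (N₀ ^ 2)).trans (le_max_left _ _)).trans hx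
  have hn1 : 1 ≤ (goodUpToQ f 1 x).card := by
    apply Finset.card_pos.2
    refine ⟨gpr f 0, ?_⟩
    have h3 : gpr f 0 ∈ goodQ f 1 := Nat.nth_mem_of_infinite hinf 0
    unfold goodUpToQ
    rw [mem_filter, Finset.mem_Icc]
    exact ⟨⟨h3.1.one_lt.le, hxg⟩, h3⟩
  have hlow := card_good_lower f hinf hC₀ x hn1
  have hnx : (goodUpToQ f 1 x).card ≤ x := by
    unfold goodUpToQ
    refine (card_filter_le _ _).trans ?_
    rw [Nat.card_Icc, Nat.add_sub_cancel]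
  set n : ℕ := (goodUpToQ f 1 x).card with hn
  have hnr1 : (1 : ℝ) ≤ n := by exact_mod_cast hn1
  have hn0 : (0 : ℝ) < n := by linarith
  -- `x ^ (7 / 12) ≤ n`
  have h6C : 6 * C₀ ≤ (x : ℝ) ^ (1 / 12 : ℝ) := by
    have h6 : ((x : ℝ) ^ (1 / 12 : ℝ)) ^ 12 = x := by
      rw [← Real.rpow_natCast, ← Real.rpow_mul hx0.le]
      norm_num
    rw [← h6] at hxx₁
    exact le_of_pow_le_pow_left₀ (by norm_num) (Real.rpow_nonneg hx0.le _) hxx₁
  have h712 : (x : ℝ) ^ (7 / 12 : ℝ) ≤ n := by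
    have h7 : (x : ℝ) ^ (2 / 3 : ℝ) = (x : ℝ) ^ (7 / 12 : ℝ) * (x : ℝ) ^ (1 / 12 : ℝ) := by
      rw [← Real.rpow_add hx0]; norm_num
    rw [h7] at hlow
    have h8 : (x : ℝ) ^ (7 / 12 : ℝ) * (6 * C₀) ≤ n * (6 * C₀) := by
      calc (x : ℝ) ^ (7 / 12 : ℝ) * (6 * C₀) ≤ (x : ℝ) ^ (7 / 12 : ℝ) * (x : ℝ) ^ (1 / 12 : ℝ) :=
            mul_le_mul_of_nonneg_left h6C (Real.rpow_nonneg hx0.le _)
        _ ≤ 6 * C₀ * n := hlow
        _ = _ := mul_comm _ _
    exact le_of_mul_le_mul_right h8 (by positivity)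
  have h12 : (x : ℝ) ^ (1 / 2 : ℝ) ≤ n :=
    (Real.rpow_le_rpow_of_exponent_le hx1' (by norm_num)).trans h712
  have hlogD3 : 3 ≤ Real.log D := by
    rw [Real.le_log_iff_exp_le hD0]
    have h1 : Real.exp 3 = Real.exp 1 ^ 3 := by rw [← Real.exp_nat_mul]; norm_num
    rw [h1]
    have h2 := Real.exp_one_lt_d9
    have h3 : Real.exp 1 ^ 3 ≤ 2.7182818286 ^ 3 :=
      pow_le_pow_left₀ (Real.exp_pos 1).le h2.le 3
    refine h3.trans (le_trans ?_ hD21)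
    norm_num
  have hlogD0 : 0 < Real.log D := by linarith
  set L : ℝ := Real.log D with hL
  set m : ℝ := min (x : ℝ) D with hm
  have hm1 : 1 ≤ m := le_min hx1' hD1
  have hm0 : 0 < m := by linarith
  have hmx : m ≤ x := min_le_left _ _
  have hκ1 : κ₀ ≤ 1 := by linarith
  refine ⟨hn1, ?_, ?_, ?_, ?_, ?_, ?_⟩
  · have h1 : (N₀ : ℝ) ≤ (x : ℝ) ^ (1 / 2 : ℝ) := by
      rw [← Real.sqrt_eq_rpow]
      exact Real.le_sqrt_of_sq_le hxN
    exact_mod_cast h1.trans h12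
  · have h1 : 2 * (5 * L) ^ (1 / κ₀) ≤ (L ^ (4 : ℕ)) ^ (1 / κ₀) := by
      have e1 : (2 : ℝ) ≤ 2 ^ (1 / κ₀) := by
        calc (2 : ℝ) = 2 ^ (1 : ℝ) := (Real.rpow_one 2).symm
          _ ≤ 2 ^ (1 / κ₀) := by
            apply Real.rpow_le_rpow_of_exponent_le (by norm_num)
            rw [le_div_iff₀ hκ0]; linarith
      calc 2 * (5 * L) ^ (1 / κ₀) ≤ 2 ^ (1 / κ₀) * (5 * L) ^ (1 / κ₀) :=
            mul_le_mul_of_nonneg_right e1 (by positivity)
        _ = (2 * (5 * L)) ^ (1 / κ₀) :=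
            (Real.mul_rpow (by norm_num) (by positivity)).symm
        _ ≤ (L ^ (4 : ℕ)) ^ (1 / κ₀) := by
            apply Real.rpow_le_rpow (by positivity) _ (by positivity)
            have : 27 ≤ L ^ 3 := by
              calc (27 : ℝ) = 3 ^ 3 := by norm_num
                _ ≤ L ^ 3 := pow_le_pow_left₀ (by norm_num) hlogD3 3
            nlinarith
    have h2 : (L ^ (4 : ℕ)) ^ (1 / κ₀) = (L ^ (1 / (κ₀ / 8))) ^ (1 / 2 : ℝ) := by
      rw [← Real.rpow_natCast, ← Real.rpow_mul hlogD0.le, ← Real.rpow_mul hlogD0.le]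
      congr 1
      push_cast
      field_simp
      norm_num
    rw [h2] at h1
    exact h1.trans ((Real.rpow_le_rpow (by positivity) hx1 (by norm_num)).trans h12)
  · have h1 : Real.log n ≤ Real.log x := Real.log_le_log hn0 (by exact_mod_cast hnx)
    have h2 : Real.log x ≤ (D : ℝ) ^ (κ₀ / 8) := by
      rw [← Real.log_exp ((D : ℝ) ^ (κ₀ / 8))]
      exact Real.log_le_log hx0 hx2
    refine (h1.trans h2).trans (Real.rpow_le_rpow_of_exponent_le hD1 (by linarith))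
  · have h1 : m ^ (1 / 2 : ℝ) ≤ min (n : ℝ) D := by
      apply le_min
      · exact (Real.rpow_le_rpow hm0.le hmx (by norm_num)).trans h12
      · calc m ^ (1 / 2 : ℝ) ≤ m ^ (1 : ℝ) :=
              Real.rpow_le_rpow_of_exponent_le hm1 (by norm_num)
          _ = m := Real.rpow_one _
          _ ≤ D := min_le_right _ _
    calc (min (n : ℝ) D) ^ (-(κ₀ / 4)) ≤ (m ^ (1 / 2 : ℝ)) ^ (-(κ₀ / 4)) :=
          Real.rpow_le_rpow_of_nonpos (by positivity) h1 (by linarith)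
      _ = m ^ (-(κ₀ / 8)) := by
          rw [← Real.rpow_mul hm0.le]
          congr 1
          ring
  · rw [Real.rpow_neg hm0.le, inv_mul_eq_div, le_div_iff₀ (by positivity)]
    have h1 : L ≤ (x : ℝ) ^ (κ₀ / 8) := by
      calc L = (L ^ (1 / (κ₀ / 8))) ^ (κ₀ / 8) := by
            rw [← Real.rpow_mul hlogD0.le]
            rw [one_div, inv_mul_cancel₀ (by positivity), Real.rpow_one]
        _ ≤ (x : ℝ) ^ (κ₀ / 8) := Real.rpow_le_rpow (by positivity) hx1 (by positivity)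
    have h2 : m ^ (κ₀ / 8) ≤ (x : ℝ) ^ (κ₀ / 8) := Real.rpow_le_rpow hm0.le hmx (by positivity)
    have h3 : (x : ℝ) ^ (κ₀ / 8) * (x : ℝ) ^ (κ₀ / 8) ≤ (x : ℝ) ^ (1 / 4 : ℝ) := by
      rw [← Real.rpow_add hx0]
      exact Real.rpow_le_rpow_of_exponent_le hx1' (by linarith)
    have h4 : (2 : ℝ) ≤ (x : ℝ) ^ (1 / 4 : ℝ) := by
      calc (2 : ℝ) = (16 : ℝ) ^ (1 / 4 : ℝ) := by
            rw [show (16 : ℝ) = 2 ^ (4 : ℝ) by norm_num, ← Real.rpow_mul (by norm_num)]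
            norm_num
        _ ≤ _ := Real.rpow_le_rpow (by norm_num) hx16 (by norm_num)
    calc 2 * L * m ^ (κ₀ / 8) ≤ 2 * (x : ℝ) ^ (κ₀ / 8) * (x : ℝ) ^ (κ₀ / 8) := by gcongr
      _ = 2 * ((x : ℝ) ^ (κ₀ / 8) * (x : ℝ) ^ (κ₀ / 8)) := by ring
      _ ≤ (x : ℝ) ^ (1 / 4 : ℝ) * (x : ℝ) ^ (1 / 4 : ℝ) := by gcongr
      _ = (x : ℝ) ^ (1 / 2 : ℝ) := by rw [← Real.rpow_add hx0]; norm_num
      _ ≤ n := h12
  · rw [Real.rpow_neg hm0.le, inv_mul_eq_div, le_div_iff₀ (by positivity), Real.sqrt_eq_rpow]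
    calc (x : ℝ) ^ (1 / 2 : ℝ) * m ^ (κ₀ / 8) ≤ (x : ℝ) ^ (1 / 2 : ℝ) * (x : ℝ) ^ (1 / 12 : ℝ) := by
          apply mul_le_mul_of_nonneg_left _ (Real.rpow_nonneg hx0.le _)
          exact (Real.rpow_le_rpow hm0.le hmx (by positivity)).trans
            (Real.rpow_le_rpow_of_exponent_le hx1' (by linarith))
      _ = (x : ℝ) ^ (7 / 12 : ℝ) := by rw [← Real.rpow_add hx0]; norm_num
      _ ≤ n := h712

/-- the main theorem -/
theorem main (f : ℤ[X]) (hdeg : f.natDegree = 5 ∨ f.natDegree = 6)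
    (hsep : (f.map (Int.castRingHom ℚ)).Separable) (R δ κ : ℝ) (hκpos : 0 < κ)
    (hκδ : 184 * κ ≤ δ) (hκ120 : 120 * κ ≤ 1) :
    ∃ C : ℝ, ∀ D : ℕ, 1 ≤ D → ∃ E : Finset ℤ,
      (E.card : ℝ) ≤ C * (D : ℝ) ^ δ ∧ ∀ d : ℤ, |d| ≤ D → Squarefree d → d ∉ E →
      ∀ x : ℕ, (Real.log D) ^ (1 / κ) ≤ x → (x : ℝ) ≤ Real.exp ((D : ℝ) ^ κ) →
        (∀ G : ℝ → ℝ → ℤ → ℝ, LipR R (fun a b => G a b 1) → LipR R (fun a b => G a b (-1)) →
          |jointAvg f d G x - avgQ f 1 (fun a b => (G a b 1 + G a b (-1)) / 2) x| ≤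
            C * (min (x : ℝ) D) ^ (-κ)) ∧
        (∀ G : ℝ → ℝ → ℝ, LipR R G →
          |avgQ f d G x - avgQ f 1 (evenPart G) x| ≤ C * (min (x : ℝ) D) ^ (-κ)) ∧
        (∀ G : ℝ → ℝ → ℝ, LipR R G → ∀ (K : Type) [Field K] [NumberField K],
          Module.finrank ℚ K = 2 → (∃ r : K, r ^ 2 = (d : K)) →
          |frobAverage (f.map (Int.castRingHom (𝓞 K))) 1 G x - avgQ f 1 G x| ≤
            C * (min (x : ℝ) D) ^ (-κ)) := by
  classical
  have hinf := goodQ_infinite f hdeg hsep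
  obtain ⟨C₀, hC₀⟩ := primeSeq_gpr f hdeg hsep
  set R' : ℝ := max R 0 with hR'
  have hR'0 : 0 ≤ R' := le_max_right _ _
  have hδ : 0 < δ := by linarith
  obtain ⟨κ₀, hκ₀⟩ : ∃ κ₀ : ℝ, κ = κ₀ / 8 := ⟨8 * κ, by ring⟩
  have hκ0 : 0 < κ₀ := by linarith
  have hκ15 : κ₀ ≤ 1 / 15 := by linarith
  have hκδ : 23 * κ₀ ≤ δ := by linarith
  set α : ℕ → ℝ := fun p => aQ f 1 p / Real.sqrt p with hα
  set β : ℕ → ℝ := fun p => bQ f 1 p / p with hβ
  obtain ⟨B, hB0, D₀, N₀, hAll⟩ := exceptional_all hC₀ α β hR'0 hκ0 hκ15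
  obtain ⟨X₀, hX₀1, hX₀⟩ := good_x f hinf hC₀ hκ0 hκ15 N₀
  rw [← hκ₀] at hX₀
  set D₁ : ℕ := max D₀ 21 with hD₁
  have hX₀r : (1 : ℝ) ≤ X₀ := by exact_mod_cast hX₀1
  have hX₀0 : (0 : ℝ) < X₀ := by linarith
  have hXκ : 0 ≤ (X₀ : ℝ) ^ κ := Real.rpow_nonneg hX₀0.le _
  set C : ℝ := 24 * (B + 1) + 2 * (X₀ : ℝ) ^ κ + (2 * D₁ + 1) with hC
  have hC24 : 24 * (B + 1) ≤ C := by
    have : (0 : ℝ) ≤ 2 * D₁ + 1 := by positivity
    rw [hC]; linarith
  have hCX : 2 * (X₀ : ℝ) ^ κ ≤ C := by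
    have : (0 : ℝ) ≤ 2 * D₁ + 1 := by positivity
    rw [hC]; linarith
  have hCD : 2 * (D₁ : ℝ) + 1 ≤ C := by rw [hC]; linarith
  have hC0 : 0 ≤ C := by linarith
  refine ⟨C, fun D hD => ?_⟩
  have hD1 : (1 : ℝ) ≤ D := by exact_mod_cast hD
  have hD0 : (0 : ℝ) < D := by linarith
  have hDδ : 1 ≤ (D : ℝ) ^ δ := Real.one_le_rpow hD1 hδ.le
  by_cases hDD : D < D₁
  · refine ⟨Finset.Icc (-(D : ℤ)) D, ?_, fun d hd _ hdE => absurd ?_ hdE⟩
    · rw [Int.card_Icc]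
      have : ((D : ℤ) + 1 - -(D : ℤ)).toNat = 2 * D + 1 := by omega
      rw [this]
      have h1 : (D : ℝ) ≤ D₁ := by exact_mod_cast hDD.le
      push_cast
      calc 2 * (D : ℝ) + 1 ≤ C := by linarith
        _ ≤ C * (D : ℝ) ^ δ := le_mul_of_one_le_right hC0 hDδ
    · rw [Finset.mem_Icc, ← abs_le]; exact hd
  push Not at hDD
  have hDD₀ : D₀ ≤ D := (le_max_left _ _).trans hDD
  have hD21 : 21 ≤ D := (le_max_right _ _).trans hDD
  set s : Finset ℤ := {d ∈ Finset.Icc (-(D : ℤ)) D | Squarefree d} with hs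
  have hsq : SqfSet s D := by
    constructor
    · intro d hd
      rw [hs, mem_filter] at hd
      exact hd.2
    · intro d hd
      rw [hs, mem_filter, Finset.mem_Icc, ← abs_le] at hd
      exact_mod_cast hd.1
  obtain ⟨E, hE1, hE2⟩ := hAll D hDD₀ s hsq
  refine ⟨insert 1 E, ?_, ?_⟩
  · have h1 : ((insert 1 E).card : ℝ) ≤ E.card + 1 := by exact_mod_cast card_insert_le 1 E
    have h2 : (D : ℝ) ^ (23 * κ₀) ≤ (D : ℝ) ^ δ := Real.rpow_le_rpow_of_exponent_le hD1 hκδ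
    calc ((insert 1 E).card : ℝ) ≤ E.card + 1 := h1
      _ ≤ B * (D : ℝ) ^ δ + 1 * (D : ℝ) ^ δ := by
          have := mul_le_mul_of_nonneg_left h2 hB0
          linarith
      _ = (B + 1) * (D : ℝ) ^ δ := by ring
      _ ≤ C * (D : ℝ) ^ δ := by
          apply mul_le_mul_of_nonneg_right _ (by linarith)
          linarith
  intro d hd hdsq hdE x hx1 hx2
  rw [mem_insert, not_or] at hdE
  obtain ⟨hdne1, hdE⟩ := hdE
  have hds : d ∈ s := by
    rw [hs, mem_filter, Finset.mem_Icc, ← abs_le]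
    exact ⟨hd, hdsq⟩
  -- the trivial bounds
  have hxpos : 1 ≤ x := by
    rcases Nat.eq_zero_or_pos x with h | h
    · exfalso
      rw [h, Nat.cast_zero] at hx1
      have hlog : 0 < Real.log D := Real.log_pos (by
        have : (21 : ℝ) ≤ D := by exact_mod_cast hD21
        linarith)
      have : 0 < (Real.log D) ^ (1 / κ) := Real.rpow_pos_of_pos hlog _
      linarith
    · exact h
  have hxr : (1 : ℝ) ≤ x := by exact_mod_cast hxpos
  set m : ℝ := min (x : ℝ) D with hm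
  have hm1 : 1 ≤ m := le_min hxr hD1
  have hm0 : 0 < m := by linarith
  have hmκ : 0 < m ^ (-κ) := Real.rpow_pos_of_pos hm0 _
  have t1 : ∀ G : ℝ → ℝ → ℤ → ℝ, LipR R (fun a b => G a b 1) → LipR R (fun a b => G a b (-1)) →
      |jointAvg f d G x - avgQ f 1 (fun a b => (G a b 1 + G a b (-1)) / 2) x| ≤ 2 := by
    intro G h1 h2
    have a1 : |jointAvg f d G x| ≤ 1 := by
      unfold jointAvg
      refine abs_avg_le_one _ _ fun p hp => ?_
      unfold goodUpToQ at hp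
      rw [mem_filter] at hp
      rcases (jacobi_good f hp.2).1 with h | h
      · rw [h]; exact h1.le_one _ _
      · rw [h]; exact h2.le_one _ _
    have a2 : |avgQ f 1 (fun a b => (G a b 1 + G a b (-1)) / 2) x| ≤ 1 := by
      unfold avgQ
      refine abs_avg_le_one _ _ fun p _ => ?_
      rw [abs_div, abs_two]
      have b1 := h1.le_one (aQ f 1 p / Real.sqrt p) (bQ f 1 p / p)
      have b2 := h2.le_one (aQ f 1 p / Real.sqrt p) (bQ f 1 p / p)
      have b3 := abs_add_le (G (aQ f 1 p / Real.sqrt p) (bQ f 1 p / p) 1)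
        (G (aQ f 1 p / Real.sqrt p) (bQ f 1 p / p) (-1))
      linarith
    have a3 := abs_sub (jointAvg f d G x) (avgQ f 1 (fun a b => (G a b 1 + G a b (-1)) / 2) x)
    linarith
  have t2 : ∀ G : ℝ → ℝ → ℝ, LipR R G → |avgQ f d G x - avgQ f 1 (evenPart G) x| ≤ 2 := by
    intro G h1
    have a1 : |avgQ f d G x| ≤ 1 := by
      unfold avgQ
      exact abs_avg_le_one _ _ fun p _ => h1.le_one _ _
    have a2 : |avgQ f 1 (evenPart G) x| ≤ 1 := by
      unfold avgQ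
      exact abs_avg_le_one _ _ fun p _ => abs_evenPart_le h1.le_one _ _
    have a3 := abs_sub (avgQ f d G x) (avgQ f 1 (evenPart G) x)
    linarith
  have t3 : ∀ G : ℝ → ℝ → ℝ, LipR R G → ∀ (K : Type) [Field K] [NumberField K],
      |frobAverage (f.map (Int.castRingHom (𝓞 K))) 1 G x - avgQ f 1 G x| ≤ 2 := by
    intro G h1 K _ _
    have a1 := abs_frobAverage_le_one (f.map (Int.castRingHom (𝓞 K))) x h1.le_one
    have a2 : |avgQ f 1 G x| ≤ 1 := by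
      unfold avgQ
      exact abs_avg_le_one _ _ fun p _ => h1.le_one _ _
    have a3 := abs_sub (frobAverage (f.map (Int.castRingHom (𝓞 K))) 1 G x) (avgQ f 1 G x)
    linarith
  have htriv : 2 ≤ C * m ^ (-κ) → (∀ G : ℝ → ℝ → ℤ → ℝ, LipR R (fun a b => G a b 1) →
          LipR R (fun a b => G a b (-1)) →
          |jointAvg f d G x - avgQ f 1 (fun a b => (G a b 1 + G a b (-1)) / 2) x| ≤
            C * m ^ (-κ)) ∧
        (∀ G : ℝ → ℝ → ℝ, LipR R G →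
          |avgQ f d G x - avgQ f 1 (evenPart G) x| ≤ C * m ^ (-κ)) ∧
        (∀ G : ℝ → ℝ → ℝ, LipR R G → ∀ (K : Type) [Field K] [NumberField K],
          Module.finrank ℚ K = 2 → (∃ r : K, r ^ 2 = (d : K)) →
          |frobAverage (f.map (Int.castRingHom (𝓞 K))) 1 G x - avgQ f 1 G x| ≤
            C * m ^ (-κ)) := fun h2 =>
    ⟨fun G h h' => (t1 G h h').trans h2, fun G h => (t2 G h).trans h2,
      fun G h K _ _ _ _ => (t3 G h K).trans h2⟩
  by_cases hxX : x < X₀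
  · apply htriv
    have h1 : m ≤ X₀ := (min_le_left _ _).trans (by exact_mod_cast hxX.le)
    have h2 : (X₀ : ℝ) ^ (-κ) ≤ m ^ (-κ) :=
      Real.rpow_le_rpow_of_nonpos hm0 h1 (by linarith)
    calc (2 : ℝ) = 2 * (X₀ : ℝ) ^ κ * (X₀ : ℝ) ^ (-κ) := by
          rw [mul_assoc, ← Real.rpow_add hX₀0, add_neg_cancel, Real.rpow_zero, mul_one]
      _ ≤ C * m ^ (-κ) := mul_le_mul hCX h2 (Real.rpow_nonneg hX₀0.le _) hC0
  push Not at hxX
  set η : ℝ := (B + 1) * m ^ (-κ) with hη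
  have hη0 : 0 ≤ η := by positivity
  have hηC : 24 * η ≤ C * m ^ (-κ) := by
    calc 24 * η = (24 * (B + 1)) * m ^ (-κ) := by rw [hη]; ring
      _ ≤ _ := mul_le_mul_of_nonneg_right hC24 hmκ.le
  by_cases hη12 : 1 / 12 < η
  · apply htriv
    linarith
  push Not at hη12
  obtain ⟨g1, g2, g3, g4, g5, g6, g7⟩ := hX₀ D hD21 x hxX hx1 hx2
  set n : ℕ := (goodUpToQ f 1 x).card with hn
  have hn0 : (0 : ℝ) < n := by exact_mod_cast g1
  obtain ⟨k1, k2⟩ := hE2 d hds hdE n g2 g3 g4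
  have hBη : B * (n * (min (n : ℝ) D) ^ (-(κ₀ / 4))) ≤ η * n := by
    calc B * (n * (min (n : ℝ) D) ^ (-(κ₀ / 4))) ≤ B * (n * m ^ (-κ)) := by gcongr
      _ ≤ (B + 1) * (n * m ^ (-κ)) := by
          apply mul_le_mul_of_nonneg_right _ (by positivity)
          linarith
      _ = η * n := by rw [hη]; ring
  have hmη : m ^ (-κ) * n ≤ η * n := by
    apply mul_le_mul_of_nonneg_right _ hn0.le
    rw [hη]
    nlinarith
  have hW : (WW (gpr f) n d : ℝ) ≤ η * n :=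
    ((WW_le_log hC₀ hdsq.ne_zero hd n).trans g6).trans hmη
  have hT1 : |TT (gpr f) (fun _ => 1) n d| ≤ η * n := k1.trans hBη
  have hTH : ∀ H : ℝ → ℝ → ℝ, LipR R H →
      |TT (gpr f) (fun p => H (aQ f 1 p / Real.sqrt p) (bQ f 1 p / p)) n d| ≤ η * n :=
    fun H hH => (k2 H (hH.mono (le_max_left _ _))).trans hBη
  have hη2 : η ≤ 1 / 2 := hη12.trans (by norm_num)
  refine ⟨fun G h h' => ?_, fun G h => ?_, fun G h K _ _ h2 hr => ?_⟩
  · have hO := h.halfSub h'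
    have key := avg_general f hinf
      (E := fun p => (G (aQ f 1 p / Real.sqrt p) (bQ f 1 p / p) 1 +
        G (aQ f 1 p / Real.sqrt p) (bQ f 1 p / p) (-1)) / 2)
      (O := fun p => (G (aQ f 1 p / Real.sqrt p) (bQ f 1 p / p) 1 -
        G (aQ f 1 p / Real.sqrt p) (bQ f 1 p / p) (-1)) / 2)
      (fun p => by
        rw [abs_div, abs_two]
        have b1 := h.le_one (aQ f 1 p / Real.sqrt p) (bQ f 1 p / p)
        have b2 := h'.le_one (aQ f 1 p / Real.sqrt p) (bQ f 1 p / p)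
        have b3 := abs_add_le (G (aQ f 1 p / Real.sqrt p) (bQ f 1 p / p) 1)
          (G (aQ f 1 p / Real.sqrt p) (bQ f 1 p / p) (-1))
        linarith)
      d x hη0 hη2 g1 (hTH _ hO) hW
    have e1 : jointAvg f d G x =
        (∑ p ∈ goodUpToQ f d x, ((G (aQ f 1 p / Real.sqrt p) (bQ f 1 p / p) 1 +
          G (aQ f 1 p / Real.sqrt p) (bQ f 1 p / p) (-1)) / 2 +
          (G (aQ f 1 p / Real.sqrt p) (bQ f 1 p / p) 1 -
          G (aQ f 1 p / Real.sqrt p) (bQ f 1 p / p) (-1)) / 2 * chi d p)) /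
          (goodUpToQ f d x).card := by
      unfold jointAvg
      congr 1
      refine sum_congr rfl fun p hp => ?_
      unfold goodUpToQ at hp
      rw [mem_filter] at hp
      obtain ⟨j1, j2⟩ := jacobi_good f hp.2
      rw [j2]
      rcases j1 with j | j
      · rw [j]; push_cast; ring
      · rw [j]; push_cast; ring
    have e2 : avgQ f 1 (fun a b => (G a b 1 + G a b (-1)) / 2) x =
        (∑ p ∈ goodUpToQ f 1 x, (G (aQ f 1 p / Real.sqrt p) (bQ f 1 p / p) 1 +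
          G (aQ f 1 p / Real.sqrt p) (bQ f 1 p / p) (-1)) / 2) / (goodUpToQ f 1 x).card := rfl
    rw [e1, e2]
    exact key.trans (by linarith)
  · have hO : LipR R fun a b => (G a b - G (-a) b) / 2 := h.halfSub h.neg_left
    have key := avg_general f hinf
      (E := fun p => evenPart G (aQ f 1 p / Real.sqrt p) (bQ f 1 p / p))
      (O := gOdd f G) (fun p => abs_evenPart_le h.le_one _ _) d x hη0 hη2 g1 (hTH _ hO) hW
    have e1 : avgQ f d G x =
        (∑ p ∈ goodUpToQ f d x, (evenPart G (aQ f 1 p / Real.sqrt p) (bQ f 1 p / p) +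
          gOdd f G p * chi d p)) / (goodUpToQ f d x).card := by
      unfold avgQ
      congr 1
      refine sum_congr rfl fun p hp => ?_
      unfold goodUpToQ at hp
      rw [mem_filter] at hp
      exact G_twist f G hp.2
    have e2 : avgQ f 1 (evenPart G) x =
        (∑ p ∈ goodUpToQ f 1 x, evenPart G (aQ f 1 p / Real.sqrt p) (bQ f 1 p / p)) /
          (goodUpToQ f 1 x).card := rfl
    rw [e1, e2]
    exact key.trans (by linarith)
  · obtain ⟨r, hr⟩ := hr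
    have key := avg_compare h2 (not_isSquare hdsq hdne1) hr f hinf (L := 1) le_rfl h.le_one x
      hη0 hη12 g1 (hTH G h) hT1 hW (g7.trans hmη)
    exact key.trans (by linarith)

end Pool.Agent.Work.MP_6dc561_nt.PS
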