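import Pool.Agent.Work.MP_6dc561_nt.AA.Scale

/-!
# High moments: very small exceptional sets at one scale
-/

set_option autoImplicit false

open Finset

namespace Pool.Agent.Work.MP_6dc561_nt.PS

open Pool.Agent.Work.MP_6dc561_nt.AA

variable {pr : ℕ → ℕ} {C : ℝ}

/-- the exceptional set at one scale -/
theorem core (h : PrimeSeq pr C) {s : Finset ℤ} {D : ℕ} (hs : SqfSet s D) (hD : 8 ≤ D)
    {g : ℕ → ℝ} (hg : ∀ p, |g p| ≤ 1) {κ : ℝ} (hκ0 : 0 < κ) (hκ : κ ≤ 1 / 15) {n : ℕ}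
    (hn1 : 1 ≤ n) {m : ℝ} (hm : m = min (n : ℝ) D) (hm3 : 3 ≤ m)
    (H1 : 2 * C * Real.log (pr n) ≤ m ^ κ) (H2 : 5 * Real.log D ≤ m ^ κ) :
    (#{d ∈ s | n * m ^ (-κ) < |TT pr g n d|} : ℝ) ≤ 4 * (D : ℝ) ^ (20 * κ) := by
  classical
  have hC := h.pos
  have hD8 : (8 : ℝ) ≤ D := by exact_mod_cast hD
  have hD0 : (0 : ℝ) < D := by linarith
  have hD1 : (1 : ℝ) ≤ D := by linarith
  have hn1r : (1 : ℝ) ≤ n := by exact_mod_cast hn1
  have hn0 : (0 : ℝ) < n := by linarith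
  have hm0 : 0 < m := by linarith
  have hm1 : 1 ≤ m := by linarith
  have hmn : m ≤ n := hm ▸ min_le_left _ _
  have hmD : m ≤ D := hm ▸ min_le_right _ _
  have hlogm : 1 ≤ Real.log m := by
    rw [Real.le_log_iff_exp_le hm0]
    have := Real.exp_one_lt_d9
    linarith
  have hlogm0 : 0 < Real.log m := by linarith
  have hlogmD : Real.log m ≤ Real.log D := Real.log_le_log hm0 hmD
  set k : ℕ := ⌈4 * Real.log D / Real.log m⌉₊ with hk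
  have hk1 : 4 * Real.log D ≤ k * Real.log m := by
    rw [← div_le_iff₀ hlogm0]
    exact Nat.le_ceil _
  have hk2 : (k : ℝ) * Real.log m ≤ 5 * Real.log D := by
    have h1 : (k : ℝ) < 4 * Real.log D / Real.log m + 1 :=
      Nat.ceil_lt_add_one (by positivity)
    calc (k : ℝ) * Real.log m ≤ (4 * Real.log D / Real.log m + 1) * Real.log m :=
          mul_le_mul_of_nonneg_right h1.le hlogm0.le
      _ = 4 * Real.log D + Real.log m := by field_simp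
      _ ≤ _ := by linarith
  have hk3 : (k : ℝ) ≤ m ^ κ := by
    calc (k : ℝ) ≤ k * Real.log m := le_mul_of_one_le_right (Nat.cast_nonneg _) hlogm
      _ ≤ 5 * Real.log D := hk2
      _ ≤ _ := H2
  have hmk1 : (D : ℝ) ^ 4 ≤ m ^ k := by
    rw [← Real.log_le_log_iff (by positivity) (by positivity), Real.log_pow, Real.log_pow]
    exact_mod_cast hk1
  have hmk2 : m ^ k ≤ (D : ℝ) ^ 5 := by
    rw [← Real.log_le_log_iff (by positivity) (by positivity), Real.log_pow, Real.log_pow]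
    exact_mod_cast hk2
  have hmt : ∀ t : ℝ, 0 ≤ t → (m ^ t) ^ k ≤ (D : ℝ) ^ (5 * t) := by
    intro t ht
    have h1 : (m ^ t) ^ k = (m ^ k) ^ t := by
      rw [← Real.rpow_natCast, ← Real.rpow_mul hm0.le, mul_comm, Real.rpow_mul hm0.le,
        Real.rpow_natCast]
    rw [h1]
    calc (m ^ k) ^ t ≤ ((D : ℝ) ^ 5) ^ t := Real.rpow_le_rpow (by positivity) hmk2 ht
      _ = (D : ℝ) ^ (5 * t) := by
          rw [← Real.rpow_natCast, ← Real.rpow_mul hD0.le]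
          norm_num
  -- the size of the last prime
  set q : ℕ := pr n with hq
  have hqpos : (1 : ℝ) ≤ q := by exact_mod_cast (h.prime n).one_lt.le
  have hqn : (q : ℝ) ≤ n * m ^ κ := by
    have h1 := h.growth n
    have h2 : 0 ≤ Real.log q := Real.log_nonneg hqpos
    calc (q : ℝ) ≤ C * ((n : ℝ) + 1) * Real.log q := h1
      _ ≤ C * (2 * n) * Real.log q := by
          apply mul_le_mul_of_nonneg_right _ h2
          apply mul_le_mul_of_nonneg_left _ hC.le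
          linarith
      _ = n * (2 * C * Real.log q) := by ring
      _ ≤ n * m ^ κ := mul_le_mul_of_nonneg_left H1 hn0.le
  -- the bad set
  set s' : Finset ℤ := {d ∈ s | n * m ^ (-κ) < |TT pr g n d|} with hs'
  have hs'sub : SqfSet s' D := ⟨fun d hd => hs.sqf d (mem_filter.1 hd).1,
    fun d hd => hs.le d (mem_filter.1 hd).1⟩
  have hPq : ∀ p ∈ PP pr n, p.Prime ∧ p ≤ q := by
    intro p hp
    unfold PP at hp
    rw [mem_image] at hp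
    obtain ⟨i, hi, rfl⟩ := hp
    rw [mem_range] at hi
    exact ⟨h.prime i, h.mono.monotone hi.le⟩
  have hmom := moment hs'sub (P := PP pr n) (fun p hp => (hPq p hp).1) (q := q)
    (fun p hp => (hPq p hp).2) (g := g) (M := 1) (fun p _ => hg p) k
  rw [h.card_PP, one_pow, one_mul] at hmom
  have hcheb : (s'.card : ℝ) * ((n * m ^ (-κ)) ^ k) ^ 2 ≤
      ∑ d ∈ s', ((∑ p ∈ PP pr n, g p * chi d p) ^ k) ^ 2 := by
    have h1 : ∑ d ∈ s', ((n * m ^ (-κ)) ^ k) ^ 2 ≤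
        ∑ d ∈ s', ((∑ p ∈ PP pr n, g p * chi d p) ^ k) ^ 2 := by
      refine sum_le_sum fun d hd => ?_
      rw [← h.TT_eq]
      have h2 : n * m ^ (-κ) < |TT pr g n d| := (mem_filter.1 hd).2
      have h3 : ((TT pr g n d) ^ k) ^ 2 = (|TT pr g n d| ^ k) ^ 2 := by
        rw [← pow_mul, ← pow_mul, mul_comm k 2, pow_mul, pow_mul, sq_abs]
      rw [h3]
      have h4 : 0 ≤ n * m ^ (-κ) := by positivity
      gcongr
    rwa [sum_const, nsmul_eq_mul] at h1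
  have hmain := hcheb.trans hmom
  -- divide by `n ^ k`
  set S : ℝ := (s'.card : ℝ) with hS
  have hS0 : 0 ≤ S := Nat.cast_nonneg _
  have hnk0 : 0 < (n : ℝ) ^ k := by positivity
  have hmκ0 : 0 < m ^ κ := Real.rpow_pos_of_pos hm0 _
  have hE : ((n * m ^ (-κ)) ^ k) ^ 2 * ((m ^ κ) ^ k) ^ 2 = (n : ℝ) ^ k * (n : ℝ) ^ k := by
    rw [Real.rpow_neg hm0.le, ← div_eq_mul_inv, div_pow, div_pow,
      div_mul_cancel₀ _ (by positivity)]
    ring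
  have hkk : (k : ℝ) ^ k ≤ (m ^ κ) ^ k := pow_le_pow_left₀ (Nat.cast_nonneg _) hk3 _
  have h1 : S * (n : ℝ) ^ k ≤ ((q : ℝ) ^ k + 1 + 4 * (D : ℝ) ^ 2 * S) * ((m ^ κ) ^ k) ^ 3 := by
    have e1 : S * ((n : ℝ) ^ k * (n : ℝ) ^ k) ≤
        (((q : ℝ) ^ k + 1 + 4 * (D : ℝ) ^ 2 * S) * ((m ^ κ) ^ k) ^ 3) * (n : ℝ) ^ k := by
      calc S * ((n : ℝ) ^ k * (n : ℝ) ^ k) =
            (S * ((n * m ^ (-κ)) ^ k) ^ 2) * ((m ^ κ) ^ k) ^ 2 := by rw [← hE]; ring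
        _ ≤ (((q : ℝ) ^ k + 1 + 4 * (D : ℝ) ^ 2 * S) * ((k : ℝ) ^ k * (n : ℝ) ^ k)) *
              ((m ^ κ) ^ k) ^ 2 := mul_le_mul_of_nonneg_right hmain (by positivity)
        _ ≤ (((q : ℝ) ^ k + 1 + 4 * (D : ℝ) ^ 2 * S) * ((m ^ κ) ^ k * (n : ℝ) ^ k)) *
              ((m ^ κ) ^ k) ^ 2 := by gcongr
        _ = _ := by ring
    have e2 : (S * (n : ℝ) ^ k) * (n : ℝ) ^ k ≤
        (((q : ℝ) ^ k + 1 + 4 * (D : ℝ) ^ 2 * S) * ((m ^ κ) ^ k) ^ 3) * (n : ℝ) ^ k := by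
      calc _ = S * ((n : ℝ) ^ k * (n : ℝ) ^ k) := by ring
        _ ≤ _ := e1
    exact le_of_mul_le_mul_right e2 hnk0
  have h3κ : ((m ^ κ) ^ k) ^ 3 ≤ D := by
    have e1 : ((m ^ κ) ^ k) ^ 3 = (m ^ (3 * κ)) ^ k := by
      rw [mul_comm 3 κ, Real.rpow_mul hm0.le, ← pow_mul, mul_comm k 3, pow_mul]
      congr 1
      exact_mod_cast (Real.rpow_natCast (m ^ κ) 3).symm
    rw [e1]
    calc (m ^ (3 * κ)) ^ k ≤ (D : ℝ) ^ (5 * (3 * κ)) := hmt _ (by positivity)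
      _ ≤ (D : ℝ) ^ (1 : ℝ) := Real.rpow_le_rpow_of_exponent_le hD1 (by linarith)
      _ = D := Real.rpow_one _
  have hnkD : 8 * (D : ℝ) ^ 3 ≤ (n : ℝ) ^ k := by
    calc 8 * (D : ℝ) ^ 3 ≤ D * (D : ℝ) ^ 3 := mul_le_mul_of_nonneg_right hD8 (by positivity)
      _ = (D : ℝ) ^ 4 := by ring
      _ ≤ m ^ k := hmk1
      _ ≤ (n : ℝ) ^ k := pow_le_pow_left₀ hm0.le hmn _
  have h2 : S * (n : ℝ) ^ k ≤ 2 * (((q : ℝ) ^ k + 1) * ((m ^ κ) ^ k) ^ 3) := by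
    have e1 : 4 * (D : ℝ) ^ 2 * S * ((m ^ κ) ^ k) ^ 3 ≤ S * (n : ℝ) ^ k / 2 := by
      calc 4 * (D : ℝ) ^ 2 * S * ((m ^ κ) ^ k) ^ 3 ≤ 4 * (D : ℝ) ^ 2 * S * D :=
            mul_le_mul_of_nonneg_left h3κ (by positivity)
        _ = S * (8 * (D : ℝ) ^ 3) / 2 := by ring
        _ ≤ S * (n : ℝ) ^ k / 2 := by gcongr
    have e2 : ((q : ℝ) ^ k + 1 + 4 * (D : ℝ) ^ 2 * S) * ((m ^ κ) ^ k) ^ 3 =
        ((q : ℝ) ^ k + 1) * ((m ^ κ) ^ k) ^ 3 + 4 * (D : ℝ) ^ 2 * S * ((m ^ κ) ^ k) ^ 3 := by ring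
    rw [e2] at h1
    linarith
  have h3 : S * (n : ℝ) ^ k ≤ (4 * ((m ^ κ) ^ k) ^ 4) * (n : ℝ) ^ k := by
    have e1 : (q : ℝ) ^ k + 1 ≤ 2 * ((n : ℝ) ^ k * (m ^ κ) ^ k) := by
      have e2 : (q : ℝ) ^ k ≤ (n : ℝ) ^ k * (m ^ κ) ^ k := by
        rw [← mul_pow]
        exact pow_le_pow_left₀ (by linarith) hqn _
      have e3 : (1 : ℝ) ≤ (q : ℝ) ^ k := one_le_pow₀ hqpos
      linarith
    calc S * (n : ℝ) ^ k ≤ 2 * (((q : ℝ) ^ k + 1) * ((m ^ κ) ^ k) ^ 3) := h2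
      _ ≤ 2 * ((2 * ((n : ℝ) ^ k * (m ^ κ) ^ k)) * ((m ^ κ) ^ k) ^ 3) := by gcongr
      _ = _ := by ring
  have h4 : S ≤ 4 * ((m ^ κ) ^ k) ^ 4 := le_of_mul_le_mul_right h3 hnk0
  refine h4.trans ?_
  have e1 : ((m ^ κ) ^ k) ^ 4 = (m ^ (4 * κ)) ^ k := by
    rw [mul_comm 4 κ, Real.rpow_mul hm0.le, ← pow_mul, mul_comm k 4, pow_mul]
    congr 1
    exact_mod_cast (Real.rpow_natCast (m ^ κ) 4).symm
  rw [e1]
  have := hmt (4 * κ) (by positivity)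
  calc 4 * (m ^ (4 * κ)) ^ k ≤ 4 * (D : ℝ) ^ (5 * (4 * κ)) := by linarith
    _ = _ := by ring_nf

end Pool.Agent.Work.MP_6dc561_nt.PS
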