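import Pool.Agent.Work.MP_6dc561_nt.AA.QDefs

/-!
# Definitions for the comparison with power saving
-/

open Polynomial

namespace Pool.Agent.Work.MP_6dc561_nt.PS

open Pool.Agent.Work.MP_6dc561_nt.AA

/-- Functions `H` on the plane with values in `[-1, 1]`, Lipschitz with constant one for the
`ℓ¹` distance, that vanish outside the square `[-R, R]²`. -/
structure LipR (R : ℝ) (H : ℝ → ℝ → ℝ) : Prop where
  le_one : ∀ a b, |H a b| ≤ 1
  lip : ∀ a b a' b', |H a b - H a' b'| ≤ |a - a'| + |b - b'|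
  supp : ∀ a b, R < |a| ∨ R < |b| → H a b = 0

/-- The average of `G (a_p/√p, b_p/p, (d | p))` over the primes `p ≤ x` that do not divide `2 d`
and are of good reduction for `y² = f(x)`; here `a_p`, `b_p` are the coefficients of the
Frobenius polynomial of `y² = f(x)` and `(d | p)` is the Legendre symbol. -/
noncomputable def jointAvg (f : ℤ[X]) (d : ℤ) (G : ℝ → ℝ → ℤ → ℝ) (x : ℕ) : ℝ :=
  (∑ p ∈ goodUpToQ f d x, G (aQ f 1 p / Real.sqrt p) (bQ f 1 p / p) (jacobiSym d p)) /
    (goodUpToQ f d x).card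

end Pool.Agent.Work.MP_6dc561_nt.PS
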