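import Pool.Agent.Work.MP_6dc561_nt.PS.All
import Pool.Agent.Work.MP_6dc561_nt.AA.Final
import Pool.Agent.Work.MP_6dc561_nt.BC.Final

/-!
# Joint law, twists and base change with power saving
-/

set_option autoImplicit false

open NumberField IsDedekindDomain Ideal Polynomial Finset

namespace Pool.Agent.Work.MP_6dc561_nt.PS

open Pool.Agent.Work.MP_6dc561_nt.AA
open Pool.Agent.Work.MP_6dc561_nt.BC (not_isSquare avg_compare)

/-- comparison of averages, general form -/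
theorem avg_general (f : ℤ[X]) (hinf : (Set.ofPred (· ∈ goodQ f 1)).Infinite) {E O : ℕ → ℝ}
    (hEM : ∀ p, |E p| ≤ 1) (d : ℤ) (x : ℕ) {η : ℝ} (hη : 0 ≤ η) (hη2 : η ≤ 1 / 2)
    (hN : 0 < (goodUpToQ f 1 x).card)
    (hT : |TT (gpr f) O (goodUpToQ f 1 x).card d| ≤ η * (goodUpToQ f 1 x).card)
    (hW : (WW (gpr f) (goodUpToQ f 1 x).card d : ℝ) ≤ η * (goodUpToQ f 1 x).card) :
    |(∑ p ∈ goodUpToQ f d x, (E p + O p * chi d p)) / (goodUpToQ f d x).card -
      (∑ p ∈ goodUpToQ f 1 x, E p) / (goodUpToQ f 1 x).card| ≤ 4 * η := by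
  classical
  set N : ℕ := (goodUpToQ f 1 x).card with hNdef
  have hN0 : (0 : ℝ) < N := by exact_mod_cast hN
  have hset : goodUpToQ f d x = (goodUpToQ f 1 x).filter (fun p : ℕ => ¬ (p : ℤ) ∣ d) := by
    ext p
    unfold goodUpToQ
    rw [mem_filter, mem_filter, mem_filter, goodQ_iff]
    tauto
  have hWcard : ((goodUpToQ f 1 x).filter (fun p : ℕ => (p : ℤ) ∣ d)).card = WW (gpr f) N d := by
    have h1 : (((goodUpToQ f 1 x).filter (fun p : ℕ => (p : ℤ) ∣ d)).card : ℝ) = WW (gpr f) N d := by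
      unfold WW
      rw [card_filter, card_filter]
      push_cast
      rw [sum_goodUpToQ f hinf x (fun p : ℕ => if (p : ℤ) ∣ d then (1 : ℝ) else 0)]
    exact_mod_cast h1
  set W : ℕ := WW (gpr f) N d with hWdef
  set Nd : ℕ := (goodUpToQ f d x).card with hNd
  have hNN : Nd + W = N := by
    rw [hNd, hset, ← hWcard, add_comm, card_filter_add_card_filter_not]
  have hNNr : (Nd : ℝ) + W = N := by exact_mod_cast hNN
  have hNd0 : (0 : ℝ) < Nd := by nlinarith
  have hNd2 : (N : ℝ) / 2 ≤ Nd := by nlinarith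
  set S : ℝ := ∑ p ∈ goodUpToQ f 1 x, E p with hS
  set S1 : ℝ := ∑ p ∈ goodUpToQ f d x, E p with hS1
  set T : ℝ := TT (gpr f) O N d with hTdef
  have hsumd : ∑ p ∈ goodUpToQ f d x, (E p + O p * chi d p) = S1 + T := by
    rw [sum_add_distrib]
    congr 1
    rw [hset, sum_filter, hTdef]
    unfold TT
    rw [← sum_goodUpToQ f hinf x (fun p => O p * chi d p)]
    refine sum_congr rfl fun p hp => ?_
    by_cases h : (p : ℤ) ∣ d
    · rw [if_neg (not_not.2 h)]
      unfold goodUpToQ at hp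
      rw [mem_filter] at hp
      have : Fact p.Prime := ⟨hp.2.1⟩
      rw [chi_eq_legendre hp.2.2.1]
      have : legendreSym p d = 0 := by
        rw [legendreSym.eq_zero_iff, ZMod.intCast_zmod_eq_zero_iff_dvd]
        exact h
      rw [this]
      simp
    · rw [if_pos h]
  have hSS : |S - S1| ≤ W := by
    have h1 : S = ∑ p ∈ (goodUpToQ f 1 x).filter (fun p : ℕ => (p : ℤ) ∣ d), E p +
        ∑ p ∈ (goodUpToQ f 1 x).filter (fun p : ℕ => ¬ (p : ℤ) ∣ d), E p :=
      (sum_filter_add_sum_filter_not _ _ _).symm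
    have h2 : S - S1 = ∑ p ∈ (goodUpToQ f 1 x).filter (fun p : ℕ => (p : ℤ) ∣ d), E p := by
      rw [h1, hS1, hset]; ring
    rw [h2]
    calc |∑ p ∈ (goodUpToQ f 1 x).filter (fun p : ℕ => (p : ℤ) ∣ d), E p| ≤
        ∑ p ∈ (goodUpToQ f 1 x).filter (fun p : ℕ => (p : ℤ) ∣ d), |E p| := abs_sum_le_sum_abs _ _
      _ ≤ ∑ p ∈ (goodUpToQ f 1 x).filter (fun p : ℕ => (p : ℤ) ∣ d), 1 := sum_le_sum fun p _ => hEM p
      _ = W := by rw [sum_const, nsmul_eq_mul, hWcard, mul_one]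
  have hS1M : |S1| ≤ Nd := by
    calc |S1| ≤ ∑ p ∈ goodUpToQ f d x, |E p| := abs_sum_le_sum_abs _ _
      _ ≤ ∑ p ∈ goodUpToQ f d x, 1 := sum_le_sum fun p _ => hEM p
      _ = Nd := by rw [sum_const, nsmul_eq_mul, mul_one]
  rw [hsumd]
  have hdec : (S1 + T) / Nd - S / N = S1 * W / (Nd * N) - (S - S1) / N + T / Nd := by
    have : (W : ℝ) = N - Nd := by linarith
    rw [this]
    field_simp
    ring
  rw [hdec]
  have e1 : |S1 * W / (Nd * N)| ≤ η := by
    rw [abs_div, abs_mul, abs_of_nonneg (by positivity : (0 : ℝ) ≤ Nd * N),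
      Nat.abs_cast, div_le_iff₀ (by positivity)]
    calc |S1| * W ≤ Nd * (η * N) :=
          mul_le_mul hS1M hW (Nat.cast_nonneg W) (by positivity)
      _ = η * (Nd * N) := by ring
  have e2 : |(S - S1) / N| ≤ η := by
    rw [abs_div, abs_of_pos hN0, div_le_iff₀ hN0]
    exact hSS.trans hW
  have e3 : |T / Nd| ≤ 2 * η := by
    rw [abs_div, abs_of_pos hNd0, div_le_iff₀ hNd0]
    calc |T| ≤ η * N := hT
      _ ≤ 2 * η * Nd := by nlinarith
  calc |S1 * W / (Nd * N) - (S - S1) / N + T / Nd|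
      ≤ |S1 * W / (Nd * N) - (S - S1) / N| + |T / Nd| := abs_add_le _ _
    _ ≤ |S1 * W / (Nd * N)| + |(S - S1) / N| + |T / Nd| := by
        have := abs_sub (S1 * W / (Nd * N)) ((S - S1) / N)
        linarith
    _ ≤ _ := by linarith

/-- averages of functions bounded by one -/
theorem abs_avg_le_one (A : Finset ℕ) (F : ℕ → ℝ) (hF : ∀ p ∈ A, |F p| ≤ 1) :
    |(∑ p ∈ A, F p) / A.card| ≤ 1 := by
  rw [abs_div, Nat.abs_cast]
  apply div_le_one_of_le₀ _ (Nat.cast_nonneg _)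
  calc |∑ p ∈ A, F p| ≤ ∑ p ∈ A, |F p| := abs_sum_le_sum_abs _ _
    _ ≤ ∑ p ∈ A, 1 := sum_le_sum hF
    _ = A.card := by simp

theorem abs_frobAverage_le_one {K : Type*} [Field K] [NumberField K] (g : (𝓞 K)[X]) (x : ℕ)
    {G : ℝ → ℝ → ℝ} (hG : ∀ a b, |G a b| ≤ 1) : |frobAverage g 1 G x| ≤ 1 := by
  classical
  have hfin := BC.goodUpTo_finite g 1 x
  unfold frobAverage
  rw [finsum_mem_eq_finite_toFinset_sum _ hfin, Set.ncard_eq_toFinset_card _ hfin, abs_div,
    Nat.abs_cast]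
  apply div_le_one_of_le₀ _ (Nat.cast_nonneg _)
  calc _ ≤ ∑ v ∈ hfin.toFinset, |G (frobTrace g 1 v / Real.sqrt (nrm v))
        (frobSecond g 1 v / nrm v)| := abs_sum_le_sum_abs _ _
    _ ≤ ∑ v ∈ hfin.toFinset, 1 := sum_le_sum fun v _ => hG _ _
    _ = _ := by simp

/-- the Legendre symbol at good primes -/
theorem jacobi_good (f : ℤ[X]) {d : ℤ} {p : ℕ} (hp : p ∈ goodQ f d) :
    (jacobiSym d p = 1 ∨ jacobiSym d p = -1) ∧ chi d p = (jacobiSym d p : ℝ) := by
  obtain ⟨h1, h2, h3, -⟩ := hp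
  have : Fact p.Prime := ⟨h1⟩
  constructor
  · rw [← jacobiSym.legendreSym.to_jacobiSym]
    apply legendreSym.eq_one_or_neg_one
    rw [Ne, ZMod.intCast_zmod_eq_zero_iff_dvd]
    exact h3
  · unfold chi
    rw [if_pos (h1.odd_of_ne_two h2)]

theorem LipR.mono {R R' : ℝ} (h : R ≤ R') {H : ℝ → ℝ → ℝ} (hH : LipR R H) : LipR R' H :=
  ⟨hH.le_one, hH.lip, fun a b hab => hH.supp a b (hab.imp (fun h' => h.trans_lt h')
    fun h' => h.trans_lt h')⟩

/-- the odd part in the third variable -/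
theorem LipR.halfSub {R : ℝ} {H H' : ℝ → ℝ → ℝ} (h : LipR R H) (h' : LipR R H') :
    LipR R fun a b => (H a b - H' a b) / 2 := by
  refine ⟨fun a b => ?_, fun a b a' b' => ?_, fun a b hab => ?_⟩
  · rw [abs_div, abs_two]
    have := abs_sub (H a b) (H' a b)
    have h1 := h.le_one a b
    have h2 := h'.le_one a b
    linarith
  · have e : (H a b - H' a b) / 2 - (H a' b' - H' a' b') / 2 =
        ((H a b - H a' b') - (H' a b - H' a' b')) / 2 := by ring
    rw [e, abs_div, abs_two]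
    have := abs_sub (H a b - H a' b') (H' a b - H' a' b')
    have h1 := h.lip a b a' b'
    have h2 := h'.lip a b a' b'
    linarith
  · rw [h.supp a b hab, h'.supp a b hab]; simp

theorem LipR.neg_left {R : ℝ} {H : ℝ → ℝ → ℝ} (h : LipR R H) : LipR R fun a b => H (-a) b := by
  refine ⟨fun a b => h.le_one _ _, fun a b a' b' => ?_, fun a b hab => ?_⟩
  · have := h.lip (-a) b (-a') b'
    have e : |(-a) - (-a')| = |a - a'| := by
      rw [← abs_neg]; ring_nf
    rwa [e] at this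
  · apply h.supp
    rwa [abs_neg]

end Pool.Agent.Work.MP_6dc561_nt.PS
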