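import Pool.Agent.Work.MP_6dc561_nt.PS.Core
import Pool.Agent.Work.MP_6dc561_nt.PS.Defs

/-!
# A small exceptional set for all scales and all Lipschitz functions
-/

set_option autoImplicit false

open Finset Filter Topology Asymptotics

namespace Pool.Agent.Work.MP_6dc561_nt.PS

open Pool.Agent.Work.MP_6dc561_nt.AA

variable {pr : ℕ → ℕ} {C : ℝ}

theorem log_pr_le (h : PrimeSeq pr C) {n : ℕ} (hn : 1 ≤ n) :
    Real.log (pr n) ≤ 2 * Real.log n + 2 * |Real.log (4 * C)| := by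
  have hC := h.pos
  have hn1 : (1 : ℝ) ≤ n := by exact_mod_cast hn
  have hn0 : (0 : ℝ) < n := by linarith
  set q : ℝ := ((pr n : ℕ) : ℝ) with hq
  have hq1 : 1 ≤ q := by rw [hq]; exact_mod_cast (h.prime n).one_lt.le
  have hq0 : 0 < q := by linarith
  have hs0 : 0 < Real.sqrt q := Real.sqrt_pos.2 hq0
  have hlog : Real.log q = 2 * Real.log (Real.sqrt q) := by
    rw [Real.log_sqrt hq0.le]; ring
  have hlog2 : Real.log q ≤ 2 * Real.sqrt q := by
    rw [hlog]
    have := Real.log_le_self hs0.le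
    linarith
  have h1 : q ≤ C * ((n : ℝ) + 1) * Real.log q := h.growth n
  have h2 : Real.sqrt q * Real.sqrt q ≤ (4 * C * n) * Real.sqrt q := by
    rw [Real.mul_self_sqrt hq0.le]
    calc q ≤ C * ((n : ℝ) + 1) * Real.log q := h1
      _ ≤ C * ((n : ℝ) + 1) * (2 * Real.sqrt q) :=
          mul_le_mul_of_nonneg_left hlog2 (by positivity)
      _ ≤ C * (2 * n) * (2 * Real.sqrt q) := by
          apply mul_le_mul_of_nonneg_right _ (by positivity)
          apply mul_le_mul_of_nonneg_left _ hC.le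
          linarith
      _ = _ := by ring
  have h3 : Real.sqrt q ≤ 4 * C * n := le_of_mul_le_mul_right h2 hs0
  rw [hlog]
  have h4 : Real.log (Real.sqrt q) ≤ Real.log (4 * C) + Real.log n := by
    rw [← Real.log_mul (by positivity) (by positivity)]
    exact Real.log_le_log hs0 h3
  have h5 := le_abs_self (Real.log (4 * C))
  linarith

theorem eventually_log_le (a b κ : ℝ) (hκ : 0 < κ) :
    ∃ N : ℝ, ∀ x : ℝ, N ≤ x → a * Real.log x + b ≤ x ^ κ := by
  have h1 : (fun x : ℝ => a * Real.log x) =o[atTop] fun x : ℝ => x ^ κ :=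
    (isLittleO_log_rpow_atTop hκ).const_mul_left a
  have h2 : (fun _ : ℝ => b) =o[atTop] fun x : ℝ => x ^ κ := by
    rw [isLittleO_const_left]
    right
    exact tendsto_norm_atTop_atTop.comp (tendsto_rpow_atTop hκ)
  have h3 := (h1.add h2).bound (by norm_num : (0 : ℝ) < 1)
  obtain ⟨N, hN⟩ := eventually_atTop.1 (h3.and (eventually_ge_atTop (0 : ℝ)))
  refine ⟨N, fun x hx => ?_⟩
  obtain ⟨h4, h5⟩ := hN x hx
  rw [one_mul, Real.norm_eq_abs, Real.norm_eq_abs, abs_of_nonneg (Real.rpow_nonneg h5 _)] at h4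
  exact (le_abs_self _).trans h4

theorem eventually_rpow_le (a b κ : ℝ) (hκ : 0 < κ) :
    ∃ N : ℝ, ∀ x : ℝ, N ≤ x → a * x ^ (κ / 2) + b ≤ x ^ κ := by
  have h1 : Tendsto (fun x : ℝ => x ^ (κ / 2)) atTop atTop := tendsto_rpow_atTop (by linarith)
  obtain ⟨N, hN⟩ := eventually_atTop.1
    ((h1.eventually_ge_atTop (|a| + |b| + 1)).and (eventually_ge_atTop (0 : ℝ)))
  refine ⟨N, fun x hx => ?_⟩
  obtain ⟨h2, h3⟩ := hN x hx
  set y : ℝ := x ^ (κ / 2) with hy
  have h4 : x ^ κ = y * y := by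
    rw [hy, ← Real.rpow_add' h3 (by linarith)]
    ring_nf
  rw [h4]
  have ha := le_abs_self a
  have hb := le_abs_self b
  have ha0 := abs_nonneg a
  have hb0 := abs_nonneg b
  have hy1 : 1 ≤ y := by linarith
  have h5 : (|a| + |b| + 1) * y ≤ y * y := mul_le_mul_of_nonneg_right h2 (by linarith)
  nlinarith

/-- the functions used at the scale `n`: indicators of boxes of side `1 / w` -/
noncomputable def boxFun (α β : ℕ → ℝ) (w : ℕ) (u : ℤ × ℤ) (p : ℕ) : ℝ :=
  if ⌊(w : ℝ) * α p⌋ = u.1 ∧ ⌊(w : ℝ) * β p⌋ = u.2 then 1 else 0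

theorem abs_boxFun_le (α β : ℕ → ℝ) (w : ℕ) (u : ℤ × ℤ) (p : ℕ) : |boxFun α β w u p| ≤ 1 := by
  unfold boxFun
  split_ifs <;> simp

/-- a Lipschitz function is close to a combination of indicators of boxes -/
theorem approx {R : ℝ} {H : ℝ → ℝ → ℝ} (hH : LipR R H) (α β : ℕ → ℝ) {w : ℕ} (hw : 1 ≤ w)
    {J : ℕ} (hJ : w * R ≤ J) (p : ℕ) :
    |H (α p) (β p) - ∑ u ∈ Finset.Icc (-(J : ℤ)) J ×ˢ Finset.Icc (-(J : ℤ)) J,
      H (u.1 / w) (u.2 / w) * boxFun α β w u p| ≤ 2 / w := by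
  classical
  have hw0 : (0 : ℝ) < w := by exact_mod_cast hw
  set u₀ : ℤ × ℤ := (⌊(w : ℝ) * α p⌋, ⌊(w : ℝ) * β p⌋) with hu₀
  have hclose : ∀ t : ℝ, |t - ⌊(w : ℝ) * t⌋ / w| ≤ 1 / w := by
    intro t
    have h1 := Int.floor_le ((w : ℝ) * t)
    have h2 := Int.lt_floor_add_one ((w : ℝ) * t)
    have h3 : t - ⌊(w : ℝ) * t⌋ / w = (w * t - ⌊(w : ℝ) * t⌋) / w := by field_simp
    rw [h3, abs_div, abs_of_pos hw0]
    apply div_le_div_of_nonneg_right _ hw0.le
    rw [abs_le]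
    constructor <;> linarith
  have hdist : |H (α p) (β p) - H (u₀.1 / w) (u₀.2 / w)| ≤ 2 / w := by
    refine (hH.lip _ _ _ _).trans ?_
    have h1 := hclose (α p)
    have h2 := hclose (β p)
    have h3 : (2 : ℝ) / w = 1 / w + 1 / w := by ring
    rw [h3]
    exact add_le_add h1 h2
  by_cases hmem : u₀ ∈ Finset.Icc (-(J : ℤ)) J ×ˢ Finset.Icc (-(J : ℤ)) J
  · have h1 : ∑ u ∈ Finset.Icc (-(J : ℤ)) J ×ˢ Finset.Icc (-(J : ℤ)) J,
        H (u.1 / w) (u.2 / w) * boxFun α β w u p = H (u₀.1 / w) (u₀.2 / w) := by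
      rw [sum_eq_single_of_mem u₀ hmem]
      · unfold boxFun
        rw [if_pos ⟨rfl, rfl⟩, mul_one]
      · intro u _ hne
        unfold boxFun
        rw [if_neg, mul_zero]
        rintro ⟨h1, h2⟩
        exact hne (Prod.ext h1.symm h2.symm)
    rw [h1]; exact hdist
  · have h1 : ∑ u ∈ Finset.Icc (-(J : ℤ)) J ×ˢ Finset.Icc (-(J : ℤ)) J,
        H (u.1 / w) (u.2 / w) * boxFun α β w u p = 0 := by
      refine sum_eq_zero fun u hu => ?_
      unfold boxFun
      rw [if_neg, mul_zero]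
      rintro ⟨h1, h2⟩
      apply hmem
      have : u₀ = u := Prod.ext h1 h2
      rwa [this]
    have h2 : H (u₀.1 / w) (u₀.2 / w) = 0 := by
      apply hH.supp
      rw [mem_product, Finset.mem_Icc, Finset.mem_Icc, ← abs_le, ← abs_le, not_and_or, not_le,
        not_le] at hmem
      have key : ∀ z : ℤ, (J : ℤ) < |z| → R < |(z : ℝ) / w| := by
        intro z hz
        rw [abs_div, abs_of_pos hw0, lt_div_iff₀ hw0]
        have h3 : (J : ℝ) < |(z : ℝ)| := by exact_mod_cast hz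
        calc R * w = w * R := mul_comm _ _
          _ ≤ J := hJ
          _ < _ := h3
      rcases hmem with h | h
      · exact Or.inl (key _ h)
      · exact Or.inr (key _ h)
    rw [h1]
    rwa [h2] at hdist

/-- control of the twisted sums of Lipschitz functions by those of the indicators -/
theorem TT_lip {R : ℝ} {H : ℝ → ℝ → ℝ} (hH : LipR R H) (α β : ℕ → ℝ) {w : ℕ} (hw : 1 ≤ w)
    {J : ℕ} (hJ : w * R ≤ J) {n : ℕ} {d : ℤ} {b : ℝ} (_hb : 0 ≤ b)
    (hT : ∀ u ∈ Finset.Icc (-(J : ℤ)) J ×ˢ Finset.Icc (-(J : ℤ)) J,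
      |TT pr (boxFun α β w u) n d| ≤ b) :
    |TT pr (fun p => H (α p) (β p)) n d| ≤ (2 * J + 1) ^ 2 * b + 2 / w * n := by
  classical
  set I : Finset (ℤ × ℤ) := Finset.Icc (-(J : ℤ)) J ×ˢ Finset.Icc (-(J : ℤ)) J with hI
  have h1 : TT pr (fun p => H (α p) (β p)) n d =
      ∑ u ∈ I, H (u.1 / w) (u.2 / w) * TT pr (boxFun α β w u) n d +
      ∑ i ∈ range n, (H (α (pr i)) (β (pr i)) -
        ∑ u ∈ I, H (u.1 / w) (u.2 / w) * boxFun α β w u (pr i)) * chi d (pr i) := by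
    unfold TT
    have e1 : ∑ u ∈ I, H (u.1 / w) (u.2 / w) *
        ∑ i ∈ range n, boxFun α β w u (pr i) * chi d (pr i) =
        ∑ i ∈ range n, (∑ u ∈ I, H (u.1 / w) (u.2 / w) * boxFun α β w u (pr i)) *
          chi d (pr i) := by
      simp_rw [mul_sum, sum_mul]
      rw [sum_comm]
      refine sum_congr rfl fun i _ => sum_congr rfl fun u _ => by ring
    rw [e1, ← sum_add_distrib]
    refine sum_congr rfl fun i _ => by ring
  have hcard : (I.card : ℝ) = (2 * J + 1) ^ 2 := by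
    rw [hI, card_product, Int.card_Icc]
    have : ((J : ℤ) + 1 - -(J : ℤ)).toNat = 2 * J + 1 := by omega
    rw [this]
    push_cast; ring
  rw [h1]
  refine (abs_add_le _ _).trans (add_le_add ?_ ?_)
  · calc |∑ u ∈ I, H (u.1 / w) (u.2 / w) * TT pr (boxFun α β w u) n d| ≤
          ∑ u ∈ I, |H (u.1 / w) (u.2 / w) * TT pr (boxFun α β w u) n d| := abs_sum_le_sum_abs _ _
      _ ≤ ∑ u ∈ I, b := by
          refine sum_le_sum fun u hu => ?_
          rw [abs_mul]
          calc |H (u.1 / w) (u.2 / w)| * |TT pr (boxFun α β w u) n d| ≤ 1 * b :=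
                mul_le_mul (hH.le_one _ _) (hT u hu) (abs_nonneg _) zero_le_one
            _ = b := one_mul b
      _ = (2 * J + 1) ^ 2 * b := by rw [sum_const, nsmul_eq_mul, hcard]
  · calc |∑ i ∈ range n, (H (α (pr i)) (β (pr i)) -
            ∑ u ∈ I, H (u.1 / w) (u.2 / w) * boxFun α β w u (pr i)) * chi d (pr i)| ≤
          ∑ i ∈ range n, |(H (α (pr i)) (β (pr i)) -
            ∑ u ∈ I, H (u.1 / w) (u.2 / w) * boxFun α β w u (pr i)) * chi d (pr i)| :=
          abs_sum_le_sum_abs _ _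
      _ ≤ ∑ i ∈ range n, 2 / (w : ℝ) := by
          refine sum_le_sum fun i _ => ?_
          rw [abs_mul]
          calc _ ≤ 2 / (w : ℝ) * 1 :=
                mul_le_mul (approx hH α β hw hJ (pr i)) (abs_chi_le _ _) (abs_nonneg _)
                  (by positivity)
            _ = _ := mul_one _
      _ = 2 / w * n := by rw [sum_const, card_range, nsmul_eq_mul, mul_comm]

end Pool.Agent.Work.MP_6dc561_nt.PS
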